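import Pool.Agent.UZ.GDefs

set_option autoImplicit false

namespace Pool.Agent.UZ

/-- The elements as a sum of types. -/
def elemSum {l w k m p : ℕ} : Elem l w k m p →
    (((Bool ⊕ Fin w) ⊕ Fin (k * k)) ⊕ (Bool × Fin m × Fin w)) ⊕
      ((Bool × Fin (l + 2) × Fin w × Fin (k * k) × ZMod p) ⊕
        ((Bool × Fin m × Fin (l + 1) × Fin w × Fin w × ZMod p) ⊕
          ((Bool × Fin (l + 1) × Fin w × Fin m × (Fin m → ZMod p)) ⊕
            (Bool × Fin (l + 1) × Fin w × Fin k × (Fin m → ZMod p)))))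
  | .b => Sum.inl (Sum.inl (Sum.inl (Sum.inl false)))
  | .top => Sum.inl (Sum.inl (Sum.inl (Sum.inl true)))
  | .c v => Sum.inl (Sum.inl (Sum.inl (Sum.inr v)))
  | .kk j => Sum.inl (Sum.inl (Sum.inr j))
  | .ff d q v => Sum.inl (Sum.inr (d, q, v))
  | .cl i v j z => Sum.inr (Sum.inl (false, i, v, j, z))
  | .acc i v j z => Sum.inr (Sum.inl (true, i, v, j, z))
  | .par d q i v j s => Sum.inr (Sum.inr (Sum.inl (d, q, i, v, j, s)))
  | .pre d i v q f => Sum.inr (Sum.inr (Sum.inr (Sum.inl (d, i, v, q, f))))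
  | .fin d i v f j => Sum.inr (Sum.inr (Sum.inr (Sum.inr (d, i, v, j, f))))

theorem elemSum_inj {l w k m p : ℕ} :
    Function.Injective (elemSum (l := l) (w := w) (k := k) (m := m) (p := p)) := by
  intro x y h
  cases x <;> cases y <;> simp_all [elemSum]

/-- The elements can be numbered, the base by `0`, the target by `1`. -/
theorem exists_embed (l w k m p n : ℕ) [NeZero p]
    (h : 2 + w + k * k + 2 * m * w + 2 * ((l + 2) * w * (k * k) * p) +
      2 * m * ((l + 1) * w * w * p) + 2 * ((l + 1) * w * m * p ^ m) +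
        2 * ((l + 1) * w * k * p ^ m) ≤ n + 2) :
    ∃ e : Elem l w k m p → Fin (n + 2), Function.Injective e ∧ e .b = 0 ∧ e .top = 1 := by
  classical
  have hc : Fintype.card ((((Bool ⊕ Fin w) ⊕ Fin (k * k)) ⊕ (Bool × Fin m × Fin w)) ⊕
      ((Bool × Fin (l + 2) × Fin w × Fin (k * k) × ZMod p) ⊕
        ((Bool × Fin m × Fin (l + 1) × Fin w × Fin w × ZMod p) ⊕
          ((Bool × Fin (l + 1) × Fin w × Fin m × (Fin m → ZMod p)) ⊕
            (Bool × Fin (l + 1) × Fin w × Fin k × (Fin m → ZMod p)))))) ≤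
      Fintype.card (Fin (n + 2)) := by
    simp only [Fintype.card_sum, Fintype.card_prod, Fintype.card_fin, ZMod.card,
      Fintype.card_bool, Fintype.card_fun]
    refine le_trans (le_of_eq ?_) h
    ring
  obtain ⟨f⟩ := Function.Embedding.nonempty_of_card_le hc
  let g : Elem l w k m p → Fin (n + 2) := fun x => f (elemSum x)
  have hg : Function.Injective g := fun x y hxy => elemSum_inj (f.injective hxy)
  have h01 : (0 : Fin (n + 2)) ≠ 1 := by
    intro h0
    have := congrArg Fin.val h0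
    simp at this
  let s1 : Equiv.Perm (Fin (n + 2)) := Equiv.swap (g .b) 0
  have hb : s1 (g .b) = 0 := Equiv.swap_apply_left _ _
  have ht : s1 (g .top) ≠ 0 := by
    intro h0
    rw [← hb] at h0
    have h1 := hg (s1.injective h0)
    cases h1
  let s2 : Equiv.Perm (Fin (n + 2)) := Equiv.swap (s1 (g .top)) 1
  refine ⟨fun x => s2 (s1 (g x)), fun x y hxy => hg (s1.injective (s2.injective hxy)), ?_, ?_⟩
  · show s2 (s1 (g .b)) = 0
    rw [hb]
    exact Equiv.swap_apply_of_ne_of_ne ht.symm h01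
  · exact Equiv.swap_apply_left _ _

end Pool.Agent.UZ
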