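import Mathlib

/-!
The choice of the parameters of the network with `2 m` sums for each node, `m` minimal.
-/

set_option autoImplicit false

namespace Pool.Agent.UZ

private theorem bern_aux (a j : ℕ) (h : j ≤ a + 1) :
    (a + 1) ^ j * (a + 1 - j) ≤ a ^ j * (a + 1) := by
  induction j with
  | zero => simp
  | succ j ih =>
    have h1 := ih (by omega)
    obtain ⟨b, hb⟩ : ∃ b, a + 1 = j + 1 + b := ⟨a + 1 - (j + 1), by omega⟩
    have h2 : a + 1 - (j + 1) = b := by omega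
    have h3 : a + 1 - j = b + 1 := by omega
    rw [h3] at h1
    rw [h2]
    have h4 : (a + 1) * b ≤ a * (b + 1) := by
      have : b ≤ a := by omega
      nlinarith
    calc (a + 1) ^ (j + 1) * b = (a + 1) ^ j * ((a + 1) * b) := by ring
      _ ≤ (a + 1) ^ j * (a * (b + 1)) := Nat.mul_le_mul_left _ h4
      _ = a * ((a + 1) ^ j * (b + 1)) := by ring
      _ ≤ a * (a ^ j * (a + 1)) := Nat.mul_le_mul_left _ h1
      _ = a ^ (j + 1) * (a + 1) := by ring

private theorem bern (a j : ℕ) (h : 2 * j ≤ a + 1) : (a + 1) ^ j ≤ 2 * a ^ j := by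
  have h1 := bern_aux a j (by omega)
  have h2 : (a + 1) ^ j * (a + 1) ≤ (2 * a ^ j) * (a + 1) := by
    calc (a + 1) ^ j * (a + 1) ≤ (a + 1) ^ j * (2 * (a + 1 - j)) :=
          Nat.mul_le_mul_left _ (by omega)
      _ = 2 * ((a + 1) ^ j * (a + 1 - j)) := by ring
      _ ≤ 2 * (a ^ j * (a + 1)) := Nat.mul_le_mul_left _ h1
      _ = (2 * a ^ j) * (a + 1) := by ring
  exact Nat.le_of_mul_le_mul_right h2 (by omega)

/-- The parameters `m`, `w`, `p`. -/
theorem choose_paramsN (l t R A r s k n : ℕ) (hl : 0 < l) (ht : 0 < t) (hk : 0 < k)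
    (_hkt : k ^ 2 ≤ 2 ^ t) (_hR : R ≤ t * k ^ 2) (hs0 : 0 < s) (hst : s ≤ 2 ^ t)
    (hs : (A + 1) * (r + 1) ≤ s ^ 2)
    (hn : 2 ^ 29 * l * t ^ 11 * (k * (k + s)) ≤ n + 2) :
    ∃ m w p : ℕ, p.Prime ∧ 0 < m ∧ 256 * (m * t ^ 2) ≤ w ∧ (2 * m + 1) * w ≤ p ∧
      96 * ((A + 1) * (2 * r + 1)) ≤ (p - 1) ^ (2 * m) ∧
      2 + w + k * k + 2 * m * w + 2 * ((l + 2) * w * (k * k) * p) +
        2 * m * ((l + 1) * w * w * p) + 2 * ((l + 1) * w * m * p ^ m) +
        2 * ((l + 1) * w * k * p ^ m) ≤ n + 2 := by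
  obtain ⟨w, hw⟩ : ∃ w, w = 256 * t ^ 3 := ⟨_, rfl⟩
  have ht3 : 1 ≤ t ^ 3 := Nat.one_le_pow _ _ ht
  have ht4 : 1 ≤ t ^ 4 := Nat.one_le_pow _ _ ht
  have hq0 : (2 * t + 1) * w ≠ 0 := by
    rw [hw]
    positivity
  obtain ⟨p, hp, hqp, hp2⟩ := Nat.exists_prime_lt_and_le_two_mul ((2 * t + 1) * w) hq0
  have hq768 : 768 * 1 ≤ (2 * t + 1) * w := by
    rw [hw]
    calc 768 * 1 = 3 * (256 * 1) := by norm_num
      _ ≤ (2 * t + 1) * (256 * t ^ 3) := Nat.mul_le_mul (by omega) (Nat.mul_le_mul_left _ ht3)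
  have hpt : t ≤ p - 1 := by
    have h1 : t * 1 ≤ (2 * t + 1) * w := Nat.mul_le_mul (by omega) (by omega)
    omega
  have h2t : 2 * t ≤ (2 * t + 1) * w := by
    calc 2 * t = (2 * t) * 1 := by ring
      _ ≤ (2 * t + 1) * w := Nat.mul_le_mul (by omega) (by omega)
  have hpw : p ≤ 1536 * t ^ 4 := by
    calc p ≤ 2 * ((2 * t + 1) * w) := hp2
      _ ≤ 2 * ((3 * t) * w) := by
        refine Nat.mul_le_mul_left _ (Nat.mul_le_mul_right _ (by omega))
      _ = 1536 * t ^ 4 := by rw [hw]; ring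
  have hex : ∃ m, 14 * s ≤ (p - 1) ^ m := by
    refine ⟨t, ?_⟩
    have h1 : 14 ≤ 384 ^ t := by
      calc 14 ≤ 384 ^ 1 := by norm_num
        _ ≤ 384 ^ t := Nat.pow_le_pow_right (by norm_num) ht
    calc 14 * s ≤ 384 ^ t * 2 ^ t := Nat.mul_le_mul h1 hst
      _ = (384 * 2) ^ t := (mul_pow 384 2 t).symm
      _ = 768 ^ t := by norm_num
      _ ≤ (p - 1) ^ t := Nat.pow_le_pow_left (by omega) t
  classical
  obtain ⟨m, hm, hmin⟩ : ∃ m, 14 * s ≤ (p - 1) ^ m ∧ ∀ j < m, ¬ 14 * s ≤ (p - 1) ^ j :=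
    ⟨Nat.find hex, Nat.find_spec hex, fun j hj => Nat.find_min hex hj⟩
  have hmt : m ≤ t := by
    by_contra hcon
    refine hmin t (by omega) ?_
    have h1 : 14 ≤ 384 ^ t := by
      calc 14 ≤ 384 ^ 1 := by norm_num
        _ ≤ 384 ^ t := Nat.pow_le_pow_right (by norm_num) ht
    calc 14 * s ≤ 384 ^ t * 2 ^ t := Nat.mul_le_mul h1 hst
      _ = (384 * 2) ^ t := (mul_pow 384 2 t).symm
      _ = 768 ^ t := by norm_num
      _ ≤ (p - 1) ^ t := Nat.pow_le_pow_left (by omega) t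
  have hm0 : 0 < m := by
    rcases Nat.eq_zero_or_pos m with h | h
    · rw [h, pow_zero] at hm
      omega
    · exact h
  obtain ⟨j, hj⟩ : ∃ j, m = j + 1 := ⟨m - 1, by omega⟩
  obtain ⟨a, ha⟩ : ∃ a, p = a + 1 := ⟨p - 1, by omega⟩
  have hpm : p ^ m ≤ 43008 * t ^ 4 * s := by
    have h1 : a ^ j ≤ 14 * s := by
      have h2 := hmin j (by omega)
      have h3 : p - 1 = a := by omega
      rw [h3] at h2
      omega
    have h4 : (a + 1) ^ j ≤ 2 * a ^ j := bern a j (by omega)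
    calc p ^ m = (a + 1) ^ j * p := by rw [hj, pow_succ, ha]
      _ ≤ (2 * (14 * s)) * (1536 * t ^ 4) :=
        Nat.mul_le_mul (h4.trans (Nat.mul_le_mul_left _ h1)) hpw
      _ = 43008 * t ^ 4 * s := by ring
  refine ⟨m, w, p, hp, hm0, ?_, ?_, ?_, ?_⟩
  · rw [hw]
    calc 256 * (m * t ^ 2) ≤ 256 * (t * t ^ 2) :=
          Nat.mul_le_mul_left _ (Nat.mul_le_mul_right _ hmt)
      _ = 256 * t ^ 3 := by ring
  · calc (2 * m + 1) * w ≤ (2 * t + 1) * w := Nat.mul_le_mul_right _ (by omega)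
      _ ≤ p := hqp.le
  · calc 96 * ((A + 1) * (2 * r + 1)) ≤ 96 * ((A + 1) * (2 * (r + 1))) :=
          Nat.mul_le_mul_left _ (Nat.mul_le_mul_left _ (by omega))
      _ = 192 * ((A + 1) * (r + 1)) := by ring
      _ ≤ 192 * s ^ 2 := Nat.mul_le_mul_left _ hs
      _ ≤ 196 * s ^ 2 := Nat.mul_le_mul_right _ (by norm_num)
      _ = (14 * s) ^ 2 := by ring
      _ ≤ ((p - 1) ^ m) ^ 2 := Nat.pow_le_pow_left hm 2
      _ = (p - 1) ^ (2 * m) := by rw [← pow_mul, mul_comm m 2]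
  · refine le_trans ?_ hn
    obtain ⟨X, hX⟩ : ∃ X, X = l * t ^ 11 * (k * (k + s)) := ⟨_, rfl⟩
    have hpow : ∀ e, e ≤ 11 → t ^ e ≤ t ^ 11 := fun e he => Nat.pow_le_pow_right ht he
    have hkk : k * k ≤ k * (k + s) := Nat.mul_le_mul_left _ (by omega)
    have hks : k * s ≤ k * (k + s) := Nat.mul_le_mul_left _ (by omega)
    have hss : s ≤ k * (k + s) := by
      calc s = 1 * s := by ring
        _ ≤ k * (k + s) := Nat.mul_le_mul hk (by omega)
    have h1k : 1 ≤ k * (k + s) := Nat.mul_pos hk (by omega)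
    have e1 : 2 + w + k * k + 2 * m * w ≤ 771 * X := by
      have a1 : 1 ≤ X := by
        rw [hX]
        exact Nat.mul_pos (Nat.mul_pos hl (Nat.pow_pos ht)) h1k
      have a2 : t ^ 3 ≤ X := by
        rw [hX]
        calc t ^ 3 = 1 * t ^ 3 * 1 := by ring
          _ ≤ l * t ^ 11 * (k * (k + s)) :=
            Nat.mul_le_mul (Nat.mul_le_mul hl (hpow 3 (by norm_num))) h1k
      have a3 : t ^ 4 ≤ X := by
        rw [hX]
        calc t ^ 4 = 1 * t ^ 4 * 1 := by ring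
          _ ≤ l * t ^ 11 * (k * (k + s)) :=
            Nat.mul_le_mul (Nat.mul_le_mul hl (hpow 4 (by norm_num))) h1k
      have a4 : k * k ≤ X := by
        rw [hX]
        calc k * k = 1 * 1 * (k * k) := by ring
          _ ≤ l * t ^ 11 * (k * (k + s)) :=
            Nat.mul_le_mul (Nat.mul_le_mul hl (Nat.pow_pos ht)) hkk
      have a5 : 2 * m * w ≤ 512 * t ^ 4 := by
        rw [hw]
        calc 2 * m * (256 * t ^ 3) ≤ 2 * t * (256 * t ^ 3) :=
              Nat.mul_le_mul_right _ (Nat.mul_le_mul_left _ hmt)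
          _ = 512 * t ^ 4 := by ring
      omega
    have e2 : 2 * ((l + 2) * w * (k * k) * p) ≤ 2359296 * X := by
      rw [hX, hw]
      calc 2 * ((l + 2) * (256 * t ^ 3) * (k * k) * p) ≤
            2 * ((3 * l) * (256 * t ^ 3) * (k * k) * (1536 * t ^ 4)) := by
            refine Nat.mul_le_mul_left _ (Nat.mul_le_mul (Nat.mul_le_mul_right _
              (Nat.mul_le_mul_right _ (by omega))) hpw)
        _ = 2359296 * (l * t ^ 7 * (k * k)) := by ring
        _ ≤ 2359296 * (l * t ^ 11 * (k * (k + s))) :=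
            Nat.mul_le_mul_left _ (Nat.mul_le_mul (Nat.mul_le_mul_left _
              (hpow 7 (by norm_num))) hkk)
    have e3 : 2 * m * ((l + 1) * w * w * p) ≤ 402653184 * X := by
      rw [hX, hw]
      calc 2 * m * ((l + 1) * (256 * t ^ 3) * (256 * t ^ 3) * p) ≤
            2 * t * ((2 * l) * (256 * t ^ 3) * (256 * t ^ 3) * (1536 * t ^ 4)) := by
            refine Nat.mul_le_mul (Nat.mul_le_mul_left _ hmt) (Nat.mul_le_mul
              (Nat.mul_le_mul_right _ (Nat.mul_le_mul_right _ (by omega))) hpw)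
        _ = 402653184 * (l * t ^ 11 * 1) := by ring
        _ ≤ 402653184 * (l * t ^ 11 * (k * (k + s))) :=
            Nat.mul_le_mul_left _ (Nat.mul_le_mul_left _ h1k)
    have e4 : 2 * ((l + 1) * w * m * p ^ m) ≤ 44040192 * X := by
      rw [hX, hw]
      calc 2 * ((l + 1) * (256 * t ^ 3) * m * p ^ m) ≤
            2 * ((2 * l) * (256 * t ^ 3) * t * (43008 * t ^ 4 * s)) := by
            refine Nat.mul_le_mul_left _ (Nat.mul_le_mul (Nat.mul_le_mul
              (Nat.mul_le_mul_right _ (by omega)) hmt) hpm)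
        _ = 44040192 * (l * t ^ 8 * s) := by ring
        _ ≤ 44040192 * (l * t ^ 11 * (k * (k + s))) :=
            Nat.mul_le_mul_left _ (Nat.mul_le_mul (Nat.mul_le_mul_left _
              (hpow 8 (by norm_num))) hss)
    have e5 : 2 * ((l + 1) * w * k * p ^ m) ≤ 44040192 * X := by
      rw [hX, hw]
      calc 2 * ((l + 1) * (256 * t ^ 3) * k * p ^ m) ≤
            2 * ((2 * l) * (256 * t ^ 3) * k * (43008 * t ^ 4 * s)) := by
            refine Nat.mul_le_mul_left _ (Nat.mul_le_mul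
              (Nat.mul_le_mul_right _ (Nat.mul_le_mul_right _ (by omega))) hpm)
        _ = 44040192 * (l * t ^ 7 * (k * s)) := by ring
        _ ≤ 44040192 * (l * t ^ 11 * (k * (k + s))) :=
            Nat.mul_le_mul_left _ (Nat.mul_le_mul (Nat.mul_le_mul_left _
              (hpow 7 (by norm_num))) hks)
    have e6 : 2 ^ 29 * l * t ^ 11 * (k * (k + s)) = 536870912 * X := by
      rw [hX]
      ring
    rw [e6]
    omega

end Pool.Agent.UZ
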