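import Pool.Agent.UZ.GFinal
import Pool.Agent.UZ.GEmbed
import Pool.Agent.UZ.GNumN
import Pool.Agent.UZ.TFinal

/-!
The theorem for GEN from networks of tables with `2 m` arguments and `k * k` cells for each node.
-/

set_option autoImplicit false

namespace Pool.Agent.UZ

open Pool.Agent.UW Finset
open Pool.Agent.UY (cel grp sub gval)

/-- The theorem for GEN: trees of size `< 2 ^ l`, `2 ^ t` states. -/
theorem gmain (l t R A r s k n : ℕ) (ht : 0 < t) (hl : 0 < l) (hlt : l ≤ 2 ^ t)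
    (hk : 0 < k) (hkt : k ^ 2 ≤ 2 ^ t) (hR : R ≤ t * k ^ 2) (hst : s ≤ 2 ^ t)
    (hs : (A + 1) * (r + 1) ≤ s ^ 2) (hn : 2 ^ 29 * l * t ^ 11 * (k * (k + s)) ≤ n + 2) :
    (∃ (Ω : Type) (_ : Fintype Ω) (_ : Nonempty Ω)
      (G : Ω → Fin (n + 2) × Fin (n + 2) → Fin (n + 2)),
      ∀ (S : Type) [Fintype S] (B : Prog (Fin (n + 2) × Fin (n + 2)) (Fin (n + 2)) S),
        Fintype.card S ≤ 2 ^ t → FewUseless B A R →
        (({ω | RightGen B r (2 ^ l) (G ω)}.ncard : ℕ) : ℝ) ≤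
          (1 / 2 + 1 / 128 + 1 / 2 ^ (t + 1)) * Nat.card Ω) ∧
    (∃ (Ω : Type) (_ : Fintype Ω) (_ : Nonempty Ω)
      (G : Ω → Fin (n + 2) × Fin (n + 2) → Fin (n + 2)), (∀ ω, Gen (G ω) 0 1) ∧
      ∀ (S : Type) [Fintype S] (B : Prog (Fin (n + 2) × Fin (n + 2)) (Fin (n + 2)) S),
        Fintype.card S ≤ 2 ^ t → FewUseless B A R →
        (∀ g, ¬ Gen g 0 1 → ∀ T, ¬ AccTree B g T) →
        (({ω | RightGen B r (2 ^ l) (G ω)}.ncard : ℕ) : ℝ) ≤ 1 / 2 ^ t * Nat.card Ω) := by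
  classical
  have hs0 : 0 < s := by
    rcases Nat.eq_zero_or_pos s with h | h
    · subst h
      have h1 : 0 < (A + 1) * (r + 1) := Nat.mul_pos (Nat.succ_pos _) (Nat.succ_pos _)
      simp at hs
    · exact h
  obtain ⟨m, w, p, hp, hm, hw, hpw, hr, hcard⟩ :=
    choose_paramsN l t R A r s k n hl ht hk hkt hR hs0 hst hs hn
  have hfact : Fact p.Prime := ⟨hp⟩
  have hp0 : NeZero p := ⟨hp.ne_zero⟩
  have hK0 : 0 < k * k := Nat.mul_pos hk hk
  have hK : k * k ≤ 2 ^ t := by rw [← pow_two]; exact hkt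
  have hRK : R ≤ t * (k * k) := by rw [← pow_two]; exact hR
  have hw0 : 0 < w := lt_of_lt_of_le (by positivity) hw
  have hwK : 0 < w * (k * k) := Nat.mul_pos hw0 hK0
  obtain ⟨e, he, h0, h1⟩ := exists_embed l w k m p n hcard
  refine ⟨⟨Lab l (w * (k * k)) p × Fin (w * (k * k)) × Bool, inferInstance, ⟨(fun _ _ => 1, ⟨0, hwK⟩, true)⟩,
    fun ω => ginst e (if ω.2.2 then inp ω.1 else bad ω.1 ω.2.1), ?_⟩,
    ⟨Lab l (w * (k * k)) p, inferInstance, ⟨fun _ _ => 1⟩, fun D => ginst e (inp D), ?_, ?_⟩⟩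
  · intro S _ B hS hB
    have hmm := (tmain ht hlt hK hK0 hm hRK hw hpw hr (pull e (ginst e) B) hS
      (fewWasteful_pull e he h0 B A R hB)).1
    refine le_trans ?_ hmm
    have : {ω : Lab l (w * (k * k)) p × Fin (w * (k * k)) × Bool |
        RightGen B r (2 ^ l) (ginst e (if ω.2.2 then inp ω.1 else bad ω.1 ω.2.1))} ⊆
        {ω : Lab l (w * (k * k)) p × Fin (w * (k * k)) × Bool |
        RightTree (pull e (ginst e) B) r (2 ^ l) (if ω.2.2 then inp ω.1 else bad ω.1 ω.2.1)} :=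
      fun ω hω => right_pull hm e he h0 h1 B r (2 ^ l) _ hω
    exact_mod_cast Set.ncard_le_ncard this (Set.toFinite _)
  · intro D
    exact (gen_one hm e he h0 h1 _).2 (yes_inp hwK D)
  · intro S _ B hS hB hsound
    have hmm := (tmain ht hlt hK hK0 hm hRK hw hpw hr (pull e (ginst e) B) hS
      (fewWasteful_pull e he h0 B A R hB)).2 (by
        intro x hx T' hT'
        obtain ⟨T, hT, _⟩ := run_pull (inst_ginst e he) B x _ T' hT'
        exact hsound _ (fun hg => hx ((gen_one hm e he h0 h1 x).1 hg)) T hT)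
    refine le_trans ?_ hmm
    have : {D : Lab l (w * (k * k)) p | RightGen B r (2 ^ l) (ginst e (inp D))} ⊆
        {D : Lab l (w * (k * k)) p | ∃ T, AccTree (pull e (ginst e) B) (inp D) T ∧ tsize T < 2 ^ l ∧
          (treads T \ relevant (inp D)).encard ≤ r} := by
      intro D hD
      rcases right_pull hm e he h0 h1 B r (2 ^ l) _ hD with ⟨_, h⟩ | ⟨h, _⟩
      · exact h
      · exact absurd (yes_inp hwK D) h
    exact_mod_cast Set.ncard_le_ncard this (Set.toFinite _)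

end Pool.Agent.UZ
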