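import Pool.Agent.UZ.Defs

/-! # Inputs which agree with a labeling (`2 m` arguments) -/

set_option autoImplicit false

namespace Pool.Agent.UZ

open Pool.Agent.UW
open Pool.Agent.UY (cel grp sub gval)

theorem inp_self' {l w K m p : ℕ} (D : Lab l (w * K) p) (i : Fin (l + 2)) (v : Fin (w * K)) :
    inp D (i, v, (argD D i v : Arg m p)) = D i v := if_pos rfl

/-- An input that agrees with a labeling up to the level `k` has its values there. -/
theorem out_agree {l w K m p : ℕ} (x : Entry l w K m p → ZMod p) (D : Lab l (w * K) p)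
    (k : Fin (l + 2)) (h : ∀ j v, j ≤ k → x (j, v, argD D j v) = D j v) (i : Fin (l + 2)) :
    i ≤ k → ∀ v, out x i v = D i v := by
  refine Fin.induction ?_ (fun i ih => ?_) i
  · intro h0 v
    exact h 0 v h0
  · intro h0 v
    have h1 : i.castSucc ≤ k := le_trans (le_of_lt (Fin.castSucc_lt_succ)) h0
    have h2 : out x i.castSucc = fun u => (D i.castSucc u : ZMod p) := funext fun u => ih h1 u
    rw [out_succ, h2, ← argD_succ D i v]
    exact h i.succ v h0

end Pool.Agent.UZ
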