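import Pool.Agent.UZ.Defs

/-!
The Cauchy matrix with `2 m` rows for each node: entries are not `0`, and square parts are
invertible.
-/

set_option autoImplicit false

namespace Pool.Agent.UZ

open Polynomial Finset Pool.Agent.UW

theorem cauchy_cast_inj {w m p : ℕ} (hp : (2 * m + 1) * w ≤ p) {a b : ℕ}
    (ha : a < (2 * m + 1) * w) (hb : b < (2 * m + 1) * w)
    (h : (a : ZMod p) = (b : ZMod p)) : a = b := by
  have h' := (ZMod.natCast_eq_natCast_iff a b p).1 h
  exact Nat.ModEq.eq_of_lt_of_lt h' (lt_of_lt_of_le ha hp) (lt_of_lt_of_le hb hp)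

theorem off_lt {m : ℕ} (d : Bool) (q : Fin m) : (if d then m else 0) + (q : ℕ) < 2 * m := by
  have := q.2
  split_ifs <;> omega

theorem row_lt {w m : ℕ} (d : Bool) (q : Fin m) (v : Fin w) :
    2 * m * (v : ℕ) + (if d then m else 0) + (q : ℕ) < 2 * m * w := by
  have h1 := off_lt d q
  have h2 : 2 * m * ((v : ℕ) + 1) ≤ 2 * m * w := Nat.mul_le_mul_left _ v.2
  have h3 : 2 * m * ((v : ℕ) + 1) = 2 * m * v + 2 * m := by ring
  omega

theorem tot_eq (m w : ℕ) : (2 * m + 1) * w = 2 * m * w + w := by ring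

theorem row_inj {w m : ℕ} {d d' : Bool} {q q' : Fin m} {v v' : Fin w}
    (h : 2 * m * (v : ℕ) + (if d then m else 0) + (q : ℕ) =
      2 * m * (v' : ℕ) + (if d' then m else 0) + (q' : ℕ)) : v = v' ∧ d = d' ∧ q = q' := by
  have h1 := off_lt d q
  have h2 := off_lt d' q'
  have e1 : (2 * m * (v : ℕ) + ((if d then m else 0) + (q : ℕ))) / (2 * m) = v := by
    rw [Nat.mul_add_div (by omega), Nat.div_eq_of_lt h1, Nat.add_zero]
  have e2 : (2 * m * (v' : ℕ) + ((if d' then m else 0) + (q' : ℕ))) / (2 * m) = v' := by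
    rw [Nat.mul_add_div (by omega), Nat.div_eq_of_lt h2, Nat.add_zero]
  rw [add_assoc, add_assoc] at h
  have hv : (v : ℕ) = v' := by rw [← e1, ← e2, h]
  have hq := q.2
  have hq' := q'.2
  refine ⟨Fin.ext hv, ?_⟩
  rw [hv] at h
  have h3 := Nat.add_left_cancel h
  cases d <;> cases d' <;> simp only [Bool.false_eq_true, if_false, if_true] at h3 ⊢
  · exact ⟨trivial, Fin.ext (by omega)⟩
  · omega
  · omega
  · exact ⟨trivial, Fin.ext (by omega)⟩

theorem cauchy_sub_ne {w m p : ℕ} (hp : (2 * m + 1) * w ≤ p) (d : Bool) (q : Fin m) (v u : Fin w) :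
    (((2 * m * (v : ℕ) + (if d then m else 0) + (q : ℕ) : ℕ) : ZMod p) -
      ((2 * m * w + (u : ℕ) : ℕ) : ZMod p)) ≠ 0 := by
  intro h
  have h1 := sub_eq_zero.1 h
  have h3 := row_lt d q v
  have h4 := tot_eq m w
  have h5 := u.2
  have h2 := cauchy_cast_inj hp (by omega) (by omega) h1
  omega

theorem M_ne {w m p : ℕ} [Fact p.Prime] (hp : (2 * m + 1) * w ≤ p) (d : Bool) (q : Fin m)
    (v u : Fin w) : M w m p d q v u ≠ 0 := by
  unfold M
  exact inv_ne_zero (cauchy_sub_ne hp d q v u)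

/-- the sums of the nodes of `T` determine `2 m |T|` values -/
theorem cauchy' {w m p : ℕ} [Fact p.Prime] (hp : (2 * m + 1) * w ≤ p) (T Y : Finset (Fin w))
    (hTY : Y.card ≤ 2 * m * T.card) (c : Fin w → ZMod p) (hc : ∀ u ∉ Y, c u = 0)
    (h : ∀ v ∈ T, ∀ d q, ∑ u, M w m p d q v u * c u = 0) : c = 0 := by
  classical
  set y : Fin w → ZMod p := fun u => ((2 * m * w + (u : ℕ) : ℕ) : ZMod p) with hy
  set x : Fin w × Bool × Fin m → ZMod p := fun a =>
    ((2 * m * (a.1 : ℕ) + (if a.2.1 then m else 0) + (a.2.2 : ℕ) : ℕ) : ZMod p) with hx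
  set f : (ZMod p)[X] := ∑ u ∈ Y, C (c u) * Lagrange.nodal (Y.erase u) y with hf
  set T2 : Finset (Fin w × Bool × Fin m) := T ×ˢ (Finset.univ : Finset (Bool × Fin m)) with hT2
  have hcard : T2.card = 2 * m * T.card := by
    rw [hT2, Finset.card_product, Finset.card_univ, Fintype.card_prod, Fintype.card_bool,
      Fintype.card_fin, mul_comm]
  have hdeg : f.degree < (T2.card : ℕ) := by
    rw [← mem_degreeLT]
    refine Submodule.sum_mem _ fun u hu => ?_
    rw [mem_degreeLT]
    have hpos : 0 < Y.card := Finset.card_pos.2 ⟨u, hu⟩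
    calc (C (c u) * Lagrange.nodal (Y.erase u) y).degree
        ≤ (C (c u)).degree + (Lagrange.nodal (Y.erase u) y).degree := degree_mul_le _ _
      _ ≤ 0 + ((Y.erase u).card : ℕ) := add_le_add degree_C_le (le_of_eq Lagrange.degree_nodal)
      _ = ((Y.card - 1 : ℕ) : WithBot ℕ) := by
          rw [zero_add, Finset.card_erase_of_mem hu]
      _ < (T2.card : ℕ) := by
          exact_mod_cast (by omega : Y.card - 1 < T2.card)
  have htot := tot_eq m w
  have hxinj : Set.InjOn x (T2 : Set (Fin w × Bool × Fin m)) := by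
    rintro ⟨a, b, q⟩ _ ⟨a', b', q'⟩ _ hab
    have h1 := row_lt b q a
    have h2 := row_lt b' q' a'
    have h3 := cauchy_cast_inj (a := 2 * m * (a : ℕ) + (if b then m else 0) + (q : ℕ))
      (b := 2 * m * (a' : ℕ) + (if b' then m else 0) + (q' : ℕ)) hp (by omega) (by omega) hab
    obtain ⟨rfl, rfl, rfl⟩ := row_inj h3
    rfl
  have heval : ∀ a ∈ T2, f.eval (x a) = 0 := by
    rintro ⟨v, b, q⟩ ha
    have hv : v ∈ T := (Finset.mem_product.1 ha).1
    have hne : ∀ u, x (v, b, q) - y u ≠ 0 := fun u => cauchy_sub_ne hp b q v u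
    have e1 : f.eval (x (v, b, q)) =
        (∏ u ∈ Y, (x (v, b, q) - y u)) * ∑ u ∈ Y, (x (v, b, q) - y u)⁻¹ * c u := by
      rw [hf, eval_finsetSum, Finset.mul_sum]
      refine Finset.sum_congr rfl fun u hu => ?_
      rw [eval_mul, eval_C, Lagrange.eval_nodal, ← Finset.mul_prod_erase Y _ hu]
      have := hne u
      field_simp
    have e2 : ∑ u ∈ Y, (x (v, b, q) - y u)⁻¹ * c u = ∑ u, M w m p b q v u * c u := by
      refine Finset.sum_subset (Finset.subset_univ Y) fun u _ hu => ?_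
      rw [hc u hu, mul_zero]
    rw [e1, e2, h v hv b q, mul_zero]
  have hf0 : f = 0 := eq_zero_of_degree_lt_of_eval_index_eq_zero (v := x) T2 hxinj hdeg heval
  funext u
  by_cases hu : u ∈ Y
  · have h1 : f.eval (y u) = 0 := by rw [hf0, eval_zero]
    rw [hf, eval_finsetSum, Finset.sum_eq_single u] at h1
    · rw [eval_mul, eval_C, Lagrange.eval_nodal] at h1
      rcases mul_eq_zero.1 h1 with h2 | h2
      · exact h2
      · exfalso
        obtain ⟨u', hu', h3⟩ := Finset.prod_eq_zero_iff.1 h2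
        have h4 := sub_eq_zero.1 h3
        have h6 := u.2
        have h7 := u'.2
        have h5 := cauchy_cast_inj hp (by omega) (by omega) h4
        exact (Finset.ne_of_mem_erase hu') (Fin.ext (by omega))
    · intro u' hu' hne
      rw [eval_mul, Lagrange.eval_nodal]
      have : ∏ i ∈ Y.erase u', (y u - y i) = 0 :=
        Finset.prod_eq_zero (Finset.mem_erase.2 ⟨hne.symm, hu⟩) (sub_self _)
      rw [this, mul_zero]
    · intro hn
      exact absurd hu hn
  · exact hc u hu

end Pool.Agent.UZ
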