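import Mathlib

/-!
# Few sets meet a small set
-/

set_option autoImplicit false

namespace Pool.Agent.UZ

theorem choose_le_add (w c : ℕ) (b : ℕ) (hb : b ≤ w) :
    w.choose (c + 1) ≤ (w - b).choose (c + 1) + b * (w - 1).choose c := by
  induction b with
  | zero => simp
  | succ b ih =>
    have h1 := ih (by omega)
    have h2 : w - b = (w - (b + 1)) + 1 := by omega
    rw [h2, Nat.choose_succ_succ] at h1
    have h3 : (w - (b + 1)).choose c ≤ (w - 1).choose c := Nat.choose_le_choose _ (by omega)
    have h4 : (b + 1) * (w - 1).choose c = b * (w - 1).choose c + (w - 1).choose c := by ring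
    simp only [Nat.succ_eq_add_one] at h1
    omega

theorem choose_most (w b c : ℕ) (h : 4 * b * c + b + c ≤ w) :
    w.choose c ≤ 3 * (w - b).choose c := by
  rcases c with _ | c
  · simp
  rcases w with _ | w
  · omega
  have h1 := choose_le_add (w + 1) c b (by omega)
  have h2 := Nat.add_one_mul_choose_eq w c
  rw [Nat.add_sub_cancel] at h1
  have h3 : 4 * (b * w.choose c) ≤ (w + 1).choose (c + 1) := by
    have h4 : 4 * (b * w.choose c) * (w + 1) ≤ (w + 1).choose (c + 1) * (w + 1) := by
      calc 4 * (b * w.choose c) * (w + 1) = 4 * b * ((w + 1) * w.choose c) := by ring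
        _ = 4 * b * ((w + 1).choose (c + 1) * (c + 1)) := by rw [h2]
        _ = (w + 1).choose (c + 1) * (4 * b * (c + 1)) := by ring
        _ ≤ (w + 1).choose (c + 1) * (w + 1) := Nat.mul_le_mul_left _ (by omega)
    exact Nat.le_of_mul_le_mul_right h4 (by omega)
  omega

end Pool.Agent.UZ
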