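import Pool.Agent.UY.Defs

/-!
Layered networks of tables with `2 m` arguments, `K` cells for each node. Generic notions (programs,
trees) are in `UW`; cells (`cel`, `grp`, `sub`, `gval`) are in `UY`.
-/

set_option autoImplicit false

namespace Pool.Agent.UZ

open Pool.Agent.UW
open Pool.Agent.UY (cel grp sub gval)

/-- Arguments of a node: two lists of `m` elements of `ZMod p`. -/
abbrev Arg (m p : ℕ) : Type := Bool → Fin m → ZMod p

/-- An entry: level (`0` at the bottom), cell of the level, arguments. -/
abbrev Entry (l w K m p : ℕ) : Type := Fin (l + 2) × Fin (w * K) × Arg m p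

/-- Coefficients of the network: the Cauchy matrix with `2 m` rows for each node. -/
def M (w m p : ℕ) (d : Bool) (q : Fin m) (v u : Fin w) : ZMod p :=
  (((2 * m * (v : ℕ) + (if d then m else 0) + (q : ℕ) : ℕ) : ZMod p) -
    ((2 * m * w + (u : ℕ) : ℕ) : ZMod p))⁻¹

/-- One of the sums of a node over the values `f` of the nodes of the level below. -/
def lin (w m p : ℕ) (d : Bool) (q : Fin m) (v : Fin w) (f : Fin w → ZMod p) : ZMod p :=
  ∑ u, M w m p d q v u * f u

/-- All sums. -/
def lins (w m p : ℕ) (v : Fin w) (f : Fin w → ZMod p) : Arg m p := fun d q => lin w m p d q v f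

/-- The values of the cells for the tables `x`: level `0` takes the entry with arguments `0`, level
`i + 1` the entry whose arguments are the sums of the values of the nodes of level `i`. -/
def out {l w K m p : ℕ} (x : Entry l w K m p → ZMod p) (i : Fin (l + 2)) : Fin (w * K) → ZMod p :=
  Fin.induction (motive := fun _ => Fin (w * K) → ZMod p) (fun u => x (0, u, 0))
    (fun i prev u => x (i.succ, u, lins w m p (grp u) (gval prev))) i

/-- The arguments of a cell. -/
def arg {l w K m p : ℕ} (x : Entry l w K m p → ZMod p) (i : Fin (l + 2)) :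
    Fin (w * K) → Arg m p :=
  Fin.cases (fun _ => 0) (fun i u => lins w m p (grp u) (gval (out x i.castSucc))) i

/-- The relevant entries: the entries of the cells of the levels `0, .., l` and of the root (cell
`0` of the last level `l + 1`) at their arguments. -/
def relevant {l w K m p : ℕ} (x : Entry l w K m p → ZMod p) : Set (Entry l w K m p) :=
  {e | e.2.2 = arg x e.1 e.2.1 ∧ (e.1 = Fin.last (l + 1) → (e.2.1 : ℕ) = 0)}

/-- The value of the root is not `0`. -/
def Yes {l w K m p : ℕ} (x : Entry l w K m p → ZMod p) : Prop :=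
  ∃ u : Fin (w * K), (u : ℕ) = 0 ∧ out x (Fin.last (l + 1)) u ≠ 0

/-- Arguments of a node for a labeling (of the cells). -/
def argG {l w K m p : ℕ} (D : Lab l (w * K) p) (i : Fin (l + 2)) : Fin w → Arg m p :=
  Fin.cases (fun _ => 0)
    (fun i v => lins w m p v (gval fun u => (D i.castSucc u : ZMod p))) i

/-- Arguments of a cell for a labeling. -/
def argD {l w K m p : ℕ} (D : Lab l (w * K) p) (i : Fin (l + 2)) (u : Fin (w * K)) :
    Arg m p := argG D i (grp u)

/-- The input of a labeling: the entry of every cell at its arguments is its label, all other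
entries are `0`. -/
def inp {l w K m p : ℕ} (D : Lab l (w * K) p) : Entry l w K m p → ZMod p :=
  fun e => if e.2.2 = argD D e.1 e.2.1 then (D e.1 e.2.1 : ZMod p) else 0

/-- The same input with the table of cell `u` of level `l` (below the root) replaced by `0`. -/
def bad {l w K m p : ℕ} (D : Lab l (w * K) p) (u : Fin (w * K)) : Entry l w K m p → ZMod p :=
  fun e => if e.1 = (Fin.last l).castSucc ∧ e.2.1 = u then 0 else inp D e

variable {S : Type}

/-- On each input at most `A` accepting trees read more than `R` different irrelevant entries. -/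
def FewWastefulTrees {l w K m p : ℕ} (B : Prog (Entry l w K m p) (ZMod p) S) (A R : ℕ) : Prop :=
  ∀ x : Entry l w K m p → ZMod p,
    {T | AccTree B x T ∧ (R : ℕ∞) < (treads T \ relevant x).encard}.encard ≤ A

/-- `B` is right on `x`: if the value is not `0`, some accepting tree with less than `h` steps and
forks reads at most `r` different irrelevant entries; if it is `0`, there is no accepting tree. -/
def RightTree {l w K m p : ℕ} (B : Prog (Entry l w K m p) (ZMod p) S) (r h : ℕ)
    (x : Entry l w K m p → ZMod p) : Prop :=
  (Yes x ∧ ∃ T, AccTree B x T ∧ tsize T < h ∧ (treads T \ relevant x).encard ≤ r) ∨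
  (¬ Yes x ∧ ∀ T, ¬ AccTree B x T)

theorem out_zero {l w K m p : ℕ} (x : Entry l w K m p → ZMod p) (u : Fin (w * K)) :
    out x 0 u = x (0, u, 0) := rfl

theorem out_succ {l w K m p : ℕ} (x : Entry l w K m p → ZMod p) (i : Fin (l + 1)) (u : Fin (w * K)) :
    out x i.succ u = x (i.succ, u, lins w m p (grp u) (gval (out x i.castSucc))) := rfl

theorem arg_zero {l w K m p : ℕ} (x : Entry l w K m p → ZMod p) (u : Fin (w * K)) :
    arg x 0 u = 0 := rfl

theorem arg_succ {l w K m p : ℕ} (x : Entry l w K m p → ZMod p) (i : Fin (l + 1)) (u : Fin (w * K)) :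
    arg x i.succ u = lins w m p (grp u) (gval (out x i.castSucc)) := rfl

theorem argG_zero {l w K m p : ℕ} (D : Lab l (w * K) p) (v : Fin w) : (argG D 0 v : Arg m p) = 0 := rfl

theorem argG_succ {l w K m p : ℕ} (D : Lab l (w * K) p) (i : Fin (l + 1)) (v : Fin w) :
    (argG D i.succ v : Arg m p) = lins w m p v (gval fun u => (D i.castSucc u : ZMod p)) := rfl

theorem argD_zero {l w K m p : ℕ} (D : Lab l (w * K) p) (u : Fin (w * K)) :
    (argD D 0 u : Arg m p) = 0 := rfl

theorem argD_succ {l w K m p : ℕ} (D : Lab l (w * K) p) (i : Fin (l + 1)) (u : Fin (w * K)) :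
    (argD D i.succ u : Arg m p) = lins w m p (grp u) (gval fun u' => (D i.castSucc u' : ZMod p)) := rfl

end Pool.Agent.UZ
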