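import Pool.Agent.UW.GDefs
import Pool.Agent.UZ.Defs

/-!
The embedding of the networks of tables with `2 m` arguments and `k * k` cells for each node into GEN.
-/

set_option autoImplicit false

namespace Pool.Agent.UZ

open Pool.Agent.UW
open Pool.Agent.UY (cel grp sub gval)

/-- Elements: base, numbers of nodes, numbers of cells, numbers of sums, `cl i v j z` = cell `j` of
node `(i, v)` has value `z`, `acc i v j z` = the product of the cells `0, .., j` of node `(i, v)` is
`z`, `par d q i v j s` = the sum `(d, q)` over the nodes `≤ j` for node `(i + 1, v)` is `s`,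
`pre d i v q f` = `f` is the list of the sums `(d, 0), .., (d, q)` (then `0`), `fin d i v f j` = `f` is
the list of the sums `(d, _)` for node `(i + 1, v)` (`j` a part of the number of a cell), target. -/
inductive Elem (l w k m p : ℕ) : Type
  | b : Elem l w k m p
  | c (v : Fin w) : Elem l w k m p
  | kk (j : Fin (k * k)) : Elem l w k m p
  | ff (d : Bool) (q : Fin m) (v : Fin w) : Elem l w k m p
  | cl (i : Fin (l + 2)) (v : Fin w) (j : Fin (k * k)) (z : ZMod p) : Elem l w k m p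
  | acc (i : Fin (l + 2)) (v : Fin w) (j : Fin (k * k)) (z : ZMod p) : Elem l w k m p
  | par (d : Bool) (q : Fin m) (i : Fin (l + 1)) (v : Fin w) (j : Fin w) (s : ZMod p) :
      Elem l w k m p
  | pre (d : Bool) (i : Fin (l + 1)) (v : Fin w) (q : Fin m) (f : Fin m → ZMod p) : Elem l w k m p
  | fin (d : Bool) (i : Fin (l + 1)) (v : Fin w) (f : Fin m → ZMod p) (j : Fin k) : Elem l w k m p
  | top : Elem l w k m p

open Classical in
/-- The operation of the tables `x`. -/
noncomputable def gop {l w k m p : ℕ} (x : Entry l w (k * k) m p → ZMod p) :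
    Elem l w k m p × Elem l w k m p → Elem l w k m p
  | (.b, .b) => if h : 0 < w then .c ⟨0, h⟩ else .b
  | (.b, .c v) => if h : (v : ℕ) + 1 < w then .c ⟨v + 1, h⟩ else .b
  | (.c _, .b) => if h : 0 < k * k then .kk ⟨0, h⟩ else .b
  | (.b, .kk j) => if h : (j : ℕ) + 1 < k * k then .kk ⟨j + 1, h⟩ else .b
  | (.kk _, .c v) => if h : 0 < m then .ff false ⟨0, h⟩ v else .b
  | (.b, .ff d q v) => if h : (q : ℕ) + 1 < m then .ff d ⟨q + 1, h⟩ v
      else if h : d = false ∧ 0 < m then .ff true ⟨0, h.2⟩ v else .b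
  | (.c v, .kk j) => .cl 0 v j (x (0, cel v j, 0))
  | (.cl i v j z, .b) =>
      if i = Fin.last (l + 1) then (if (v : ℕ) = 0 ∧ (j : ℕ) = 0 ∧ z ≠ 0 then .top else .b)
      else (if (j : ℕ) = 0 then .acc i v j z else .b)
  | (.acc i v j z, .cl i' v' j' z') =>
      if i = i' ∧ v = v' ∧ (j' : ℕ) = j + 1 then .acc i v j' (z * z') else .b
  | (.acc i u j z, .ff d q v) =>
      if h : (u : ℕ) = 0 ∧ (j : ℕ) + 1 = k * k ∧ (i : ℕ) < l + 1 ∧ ((i : ℕ) = l → (v : ℕ) = 0) then
        .par d q ⟨i, h.2.2.1⟩ v u (M w m p d q v u * z) else .b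
  | (.par d q i v j s, .acc i' u j' z) =>
      if (i : ℕ) = (i' : ℕ) ∧ (u : ℕ) = j + 1 ∧ (j' : ℕ) + 1 = k * k then
        .par d q i v u (s + M w m p d q v u * z) else .b
  | (.par d q i v j s, .b) =>
      if (q : ℕ) = 0 ∧ (j : ℕ) + 1 = w then .pre d i v q (Function.update 0 q s) else .b
  | (.pre d i v q f, .par d' q' i' v' j s) =>
      if d = d' ∧ i = i' ∧ v = v' ∧ (q' : ℕ) = q + 1 ∧ (j : ℕ) + 1 = w then
        .pre d i v q' (Function.update f q' s) else .b
  | (.pre d i v q f, .b) => if h : (q : ℕ) + 1 = m ∧ 0 < k then .fin d i v f ⟨0, h.2⟩ else .b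
  | (.fin d i v f j, .b) =>
      if h : (i : ℕ) ≠ l ∧ (j : ℕ) + 1 < k then .fin d i v f ⟨j + 1, h.2⟩ else .b
  | (.fin d i v f j, .fin d' i' v' f' j') =>
      if d = false ∧ d' = true ∧ i = i' ∧ v = v' then
        .cl i.succ v (cel j j') (x (i.succ, cel v (cel j j'), fun e => cond e f' f)) else .b
  | _ => .b

/-- The generated elements. -/
def Good {l w k m p : ℕ} (x : Entry l w (k * k) m p → ZMod p) : Elem l w k m p → Prop
  | .b => True
  | .c _ => True
  | .kk _ => True
  | .ff _ _ _ => True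
  | .cl i v j z => z = out x i (cel v j) ∧ (i = Fin.last (l + 1) → (v : ℕ) = 0 ∧ (j : ℕ) = 0)
  | .acc i v j z => i ≠ Fin.last (l + 1) ∧
      z = ∏ j' ∈ Finset.univ.filter (fun j' : Fin (k * k) => (j' : ℕ) ≤ j), out x i (cel v j')
  | .par d q i v j s => s = ∑ u ∈ Finset.univ.filter (fun u : Fin w => (u : ℕ) ≤ j),
      M w m p d q v u * gval (out x i.castSucc) u ∧ ((i : ℕ) = l → (v : ℕ) = 0)
  | .pre d i v q f => (∀ q' : Fin m, f q' = if (q' : ℕ) ≤ q then
      lin w m p d q' v (gval (out x i.castSucc)) else 0) ∧ ((i : ℕ) = l → (v : ℕ) = 0)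
  | .fin d i v f j => (∀ q' : Fin m, f q' = lin w m p d q' v (gval (out x i.castSucc))) ∧
      ((i : ℕ) = l → (v : ℕ) = 0 ∧ (j : ℕ) = 0)
  | .top => Yes x

end Pool.Agent.UZ
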