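import Pool.Agent.UZ.GDefs

/-!
Generated elements are good: they carry right values (`2 m` sums, `k * k` cells for each node).
-/

set_option autoImplicit false

namespace Pool.Agent.UZ

open Pool.Agent.UW
open Pool.Agent.UY (cel grp sub gval grp_cel cel_val)

private theorem filter_zero {w : ℕ} (u : Fin w) (h : (u : ℕ) = 0) :
    (Finset.univ.filter fun u' : Fin w => (u' : ℕ) ≤ u) = {u} := by
  ext u'
  simp only [Finset.mem_filter, Finset.mem_univ, true_and, Finset.mem_singleton]
  constructor
  · intro h7
    exact Fin.ext (by omega)
  · rintro rfl
    exact le_rfl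

private theorem filter_all {w : ℕ} (j : Fin w) (h : (j : ℕ) + 1 = w) :
    (Finset.univ.filter fun u' : Fin w => (u' : ℕ) ≤ j) = Finset.univ := by
  ext u'
  simp only [Finset.mem_filter, Finset.mem_univ, true_and, iff_true]
  have := u'.isLt
  omega

private theorem filter_succ {w : ℕ} (j u : Fin w) (h : (u : ℕ) = j + 1) :
    (Finset.univ.filter fun u' : Fin w => (u' : ℕ) ≤ u) =
      insert u (Finset.univ.filter fun u' : Fin w => (u' : ℕ) ≤ j) := by
  ext u'
  simp only [Finset.mem_filter, Finset.mem_univ, true_and, Finset.mem_insert]
  constructor
  · intro h7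
    by_cases h8 : u' = u
    · exact Or.inl h8
    · refine Or.inr ?_
      have : (u' : ℕ) ≠ u := fun h9 => h8 (Fin.ext h9)
      omega
  · rintro (rfl | h7)
    · exact le_rfl
    · omega

private theorem not_mem_filter {w : ℕ} (j u : Fin w) (h : (u : ℕ) = j + 1) :
    u ∉ Finset.univ.filter fun u' : Fin w => (u' : ℕ) ≤ j := by
  simp only [Finset.mem_filter, Finset.mem_univ, true_and]
  omega

/-- The accumulated product of all cells is the value of the node. -/
private theorem acc_all {l w k m p : ℕ} (x : Entry l w (k * k) m p → ZMod p) (i : Fin (l + 2))
    (u : Fin w) (j : Fin (k * k)) (z : ZMod p) (hz : Good x (.acc i u j z))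
    (hj : (j : ℕ) + 1 = k * k) : z = gval (out x i) u := by
  obtain ⟨-, h⟩ := hz
  rw [filter_all j hj] at h
  exact h

/-- The sum over all nodes. -/
private theorem par_all {l w k m p : ℕ} (x : Entry l w (k * k) m p → ZMod p) (d : Bool)
    (q : Fin m) (i : Fin (l + 1)) (v j : Fin w) (s : ZMod p) (hs : Good x (.par d q i v j s))
    (hj : (j : ℕ) + 1 = w) : s = lin w m p d q v (gval (out x i.castSucc)) := by
  obtain ⟨h, -⟩ := hs
  rw [filter_all j hj] at h
  exact h

private theorem good_step {l w k m p : ℕ} (x : Entry l w (k * k) m p → ZMod p)
    (y z : Elem l w k m p) (hy : Good x y) (hz : Good x z) : Good x (gop x (y, z)) := by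
  cases y with
  | b =>
    cases z with
    | b => dsimp only [gop]; split_ifs <;> trivial
    | c v => dsimp only [gop]; split_ifs <;> trivial
    | kk j => dsimp only [gop]; split_ifs <;> trivial
    | ff d q v => dsimp only [gop]; split_ifs <;> trivial
    | cl i v j z => trivial
    | acc i v j z => trivial
    | par d q i v j s => trivial
    | pre d i v q f => trivial
    | fin d i v f j => trivial
    | top => trivial
  | c v =>
    cases z with
    | b => dsimp only [gop]; split_ifs <;> trivial
    | c v' => trivial
    | kk j =>
      refine ⟨rfl, fun h => ?_⟩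
      exact absurd (congrArg Fin.val h) (by simp)
    | ff d q v => trivial
    | cl i u j a => trivial
    | acc i u j a => trivial
    | par d q i v j s => trivial
    | pre d i v q f => trivial
    | fin d i v f j => trivial
    | top => trivial
  | kk j =>
    cases z with
    | c v => dsimp only [gop]; split_ifs <;> trivial
    | b => trivial
    | kk j' => trivial
    | ff d q v => trivial
    | cl i u j a => trivial
    | acc i u j a => trivial
    | par d q i v j s => trivial
    | pre d i v q f => trivial
    | fin d i v f j => trivial
    | top => trivial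
  | ff d q v => cases z <;> trivial
  | cl i v j a =>
    cases z with
    | b =>
      obtain ⟨h4, -⟩ := hy
      dsimp only [gop]
      split_ifs with h1 h2 h3
      · obtain ⟨h5, h6, h7⟩ := h2
        subst h1
        refine ⟨cel v j, ?_, fun h8 => h7 (h4.trans h8)⟩
        rw [cel_val, h5, h6, mul_zero, add_zero]
      · trivial
      · refine ⟨h1, ?_⟩
        rw [filter_zero j h3, Finset.prod_singleton]
        exact h4
      · trivial
    | c v => trivial
    | kk j => trivial
    | ff d q v => trivial
    | cl i v j z => trivial
    | acc i v j z => trivial
    | par d q i v j s => trivial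
    | pre d i v q f => trivial
    | fin d i v f j => trivial
    | top => trivial
  | acc i u j a =>
    cases z with
    | b => trivial
    | c v => trivial
    | kk j => trivial
    | ff d q v =>
      dsimp only [gop]
      split_ifs with h
      · have h4 := acc_all x i u j a hy h.2.1
        refine ⟨?_, h.2.2.2⟩
        have h5 : (⟨(i : ℕ), h.2.2.1⟩ : Fin (l + 1)).castSucc = i := Fin.ext rfl
        rw [filter_zero u h.1, Finset.sum_singleton, h5, h4]
      · trivial
    | cl i' v' j' a' =>
      dsimp only [gop]
      split_ifs with h
      · obtain ⟨h1, h2, h3⟩ := h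
        obtain ⟨h4, h5⟩ := hy
        obtain ⟨h6, -⟩ := hz
        subst h1 h2
        refine ⟨h4, ?_⟩
        rw [filter_succ j j' h3, Finset.prod_insert (not_mem_filter j j' h3), h5, h6, mul_comm]
      · trivial
    | acc i v j z => trivial
    | par d q i v j s => trivial
    | pre d i v q f => trivial
    | fin d i v f j => trivial
    | top => trivial
  | par d q i v j s =>
    cases z with
    | b =>
      dsimp only [gop]
      split_ifs with h
      · obtain ⟨h1, h2⟩ := h
        have h3 := par_all x d q i v j s hy h2
        refine ⟨fun q' => ?_, hy.2⟩
        by_cases h4 : q' = q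
        · subst h4
          rw [Function.update_self, if_pos le_rfl, h3]
        · have h5 : ¬ (q' : ℕ) ≤ q := fun h6 => h4 (Fin.ext (by omega))
          rw [Function.update_of_ne h4, if_neg h5]
          rfl
      · trivial
    | c v => trivial
    | kk j => trivial
    | ff d q v => trivial
    | cl i v j z => trivial
    | acc i' u j' a =>
      dsimp only [gop]
      split_ifs with h
      · obtain ⟨h1, h2, h3⟩ := h
        have h4 := acc_all x i' u j' a hz h3
        obtain ⟨h5, h6⟩ := hy
        have h7 : i.castSucc = i' := Fin.ext h1
        subst h7
        refine ⟨?_, h6⟩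
        rw [filter_succ j u h2, Finset.sum_insert (not_mem_filter j u h2), h5, h4, add_comm]
      · trivial
    | par d q i v j s => trivial
    | pre d i v q f => trivial
    | fin d i v f j => trivial
    | top => trivial
  | pre d i v q f =>
    cases z with
    | b =>
      dsimp only [gop]
      split_ifs with h
      · obtain ⟨h1, h2⟩ := h
        obtain ⟨h3, h4⟩ := hy
        refine ⟨fun q' => ?_, fun h6 => ⟨h4 h6, rfl⟩⟩
        have h5 := q'.isLt
        rw [h3 q', if_pos (by omega)]
      · trivial
    | c v => trivial
    | kk j => trivial
    | ff d q v => trivial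
    | cl i v j z => trivial
    | acc i v j z => trivial
    | par d' q' i' v' j s =>
      dsimp only [gop]
      split_ifs with h
      · obtain ⟨h1, h2, h3, h4, h5⟩ := h
        obtain ⟨h6, h7⟩ := hy
        have h8 := par_all x d' q' i' v' j s hz h5
        subst h1 h2 h3
        refine ⟨fun q'' => ?_, h7⟩
        by_cases h9 : q'' = q'
        · subst h9
          rw [Function.update_self, if_pos le_rfl, h8]
        · have h10 : ((q'' : ℕ) ≤ q') ↔ ((q'' : ℕ) ≤ q) := by
            have h11 : (q'' : ℕ) ≠ q' := fun h12 => h9 (Fin.ext h12)
            omega
          rw [Function.update_of_ne h9, h6 q'']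
          by_cases h12 : (q'' : ℕ) ≤ q
          · rw [if_pos h12, if_pos (h10.2 h12)]
          · rw [if_neg h12, if_neg (fun h13 => h12 (h10.1 h13))]
      · trivial
    | pre d i v q f => trivial
    | fin d i v f j => trivial
    | top => trivial
  | fin d i v f j =>
    cases z with
    | b =>
      dsimp only [gop]
      split_ifs with h
      · exact ⟨hy.1, fun h6 => absurd h6 h.1⟩
      · trivial
    | c v => trivial
    | kk j => trivial
    | ff d q v => trivial
    | cl i v j z => trivial
    | acc i v j z => trivial
    | par d q i v j s => trivial
    | pre d i v q f => trivial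
    | fin d' i' v' f' j' =>
      dsimp only [gop]
      split_ifs with h
      · obtain ⟨h1, h2, h3, h4⟩ := h
        obtain ⟨h5, h6⟩ := hy
        obtain ⟨h7, h8⟩ := hz
        subst h1 h2 h3 h4
        have h10 : (fun e => cond e f' f : Arg m p) =
            lins w m p v (gval (out x i.castSucc)) := by
          funext e q
          cases e
          · exact h5 q
          · exact h7 q
        refine ⟨?_, fun h9 => ?_⟩
        · rw [out_succ, grp_cel, h10]
        · have h11 : (i : ℕ) = l := by
            have := congrArg Fin.val h9
            simp at this
            exact this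
          refine ⟨(h6 h11).1, ?_⟩
          rw [cel_val, (h6 h11).2, (h8 h11).2, mul_zero, add_zero]
      · trivial
    | top => trivial
  | top =>
    cases z <;> trivial

/-- G2: every generated element is good. -/
theorem good_of_gen {l w k m p : ℕ} (x : Entry l w (k * k) m p → ZMod p) (y : Elem l w k m p)
    (h : Gen (gop x) .b y) : Good x y := by
  induction h with
  | base => trivial
  | op y z _ _ hy hz => exact good_step x y z hy hz

end Pool.Agent.UZ
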