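import Pool.Agent.UZ.GDefs

/-!
If the root has a value different from `0`, the base generates the target.
-/

set_option autoImplicit false

namespace Pool.Agent.UZ

open Pool.Agent.UW
open Pool.Agent.UY (cel grp sub gval grp_cel cel_grp_sub cel_val)

private theorem gen_c {l w k m p : ℕ} (x : Entry l w (k * k) m p → ZMod p) (n : ℕ) :
    ∀ h : n < w, Gen (gop x) .b (.c ⟨n, h⟩) := by
  induction n with
  | zero =>
    intro h
    have h1 : gop x (.b, .b) = .c ⟨0, h⟩ := by
      dsimp only [gop]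
      rw [dif_pos h]
    rw [← h1]
    exact Gen.op _ _ Gen.base Gen.base
  | succ n ih =>
    intro h
    have h0 : n < w := by omega
    have h1 : gop x (.b, .c ⟨n, h0⟩) = .c ⟨n + 1, h⟩ := by
      dsimp only [gop]
      rw [dif_pos h]
    rw [← h1]
    exact Gen.op _ _ Gen.base (ih h0)

private theorem gen_kk {l w k m p : ℕ} (x : Entry l w (k * k) m p → ZMod p) (v : Fin w) (n : ℕ) :
    ∀ h : n < k * k, Gen (gop x) .b (.kk ⟨n, h⟩) := by
  induction n with
  | zero =>
    intro h
    have h1 : gop x (.c v, .b) = .kk ⟨0, h⟩ := by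
      dsimp only [gop]
      rw [dif_pos h]
    rw [← h1]
    exact Gen.op _ _ (gen_c x v v.isLt) Gen.base
  | succ n ih =>
    intro h
    have h0 : n < k * k := by omega
    have h1 : gop x (.b, .kk ⟨n, h0⟩) = .kk ⟨n + 1, h⟩ := by
      dsimp only [gop]
      rw [dif_pos h]
    rw [← h1]
    exact Gen.op _ _ Gen.base (ih h0)

private theorem gen_ff_false {l w k m p : ℕ} (x : Entry l w (k * k) m p → ZMod p) (v : Fin w)
    (hk : 0 < k * k) (n : ℕ) :
    ∀ h : n < m, Gen (gop x) .b (.ff false ⟨n, h⟩ v) := by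
  induction n with
  | zero =>
    intro h
    have h1 : gop x (.kk ⟨0, hk⟩, .c v) = .ff false ⟨0, h⟩ v := by
      dsimp only [gop]
      rw [dif_pos h]
    rw [← h1]
    exact Gen.op _ _ (gen_kk x v 0 hk) (gen_c x v v.isLt)
  | succ n ih =>
    intro h
    have h0 : n < m := by omega
    have h1 : gop x (.b, .ff false ⟨n, h0⟩ v) = .ff false ⟨n + 1, h⟩ v := by
      dsimp only [gop]
      rw [dif_pos h]
    rw [← h1]
    exact Gen.op _ _ Gen.base (ih h0)

private theorem gen_ff_true {l w k m p : ℕ} (x : Entry l w (k * k) m p → ZMod p) (v : Fin w)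
    (hk : 0 < k * k) (n : ℕ) :
    ∀ h : n < m, Gen (gop x) .b (.ff true ⟨n, h⟩ v) := by
  induction n with
  | zero =>
    intro h
    have h0 : m - 1 < m := by omega
    have h2 : ¬ (((⟨m - 1, h0⟩ : Fin m) : ℕ) + 1 < m) := by
      simp only
      omega
    have h3 : (false : Bool) = false ∧ 0 < m := ⟨rfl, h⟩
    have h1 : gop x (.b, .ff false ⟨m - 1, h0⟩ v) = .ff true ⟨0, h⟩ v := by
      dsimp only [gop]
      rw [dif_neg h2, dif_pos h3]
    rw [← h1]
    exact Gen.op _ _ Gen.base (gen_ff_false x v hk (m - 1) h0)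
  | succ n ih =>
    intro h
    have h0 : n < m := by omega
    have h1 : gop x (.b, .ff true ⟨n, h0⟩ v) = .ff true ⟨n + 1, h⟩ v := by
      dsimp only [gop]
      rw [dif_pos h]
    rw [← h1]
    exact Gen.op _ _ Gen.base (ih h0)

private theorem gen_ff {l w k m p : ℕ} (x : Entry l w (k * k) m p → ZMod p) (v : Fin w)
    (hk : 0 < k * k) (d : Bool) (q : Fin m) : Gen (gop x) .b (.ff d q v) := by
  cases d with
  | false => exact gen_ff_false x v hk q q.isLt
  | true => exact gen_ff_true x v hk q q.isLt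

private theorem gen_acc {l w k m p : ℕ} (x : Entry l w (k * k) m p → ZMod p) (i : Fin (l + 2))
    (hi : i ≠ Fin.last (l + 1)) (v : Fin w)
    (hcl : ∀ j : Fin (k * k), Gen (gop x) .b (.cl i v j (out x i (cel v j)))) (n : ℕ) :
    ∀ h : n < k * k, Gen (gop x) .b (.acc i v ⟨n, h⟩
      (∏ k' ∈ Finset.univ.filter (fun k' : Fin (k * k) => (k' : ℕ) ≤ n), out x i (cel v k'))) := by
  induction n with
  | zero =>
    intro h
    have h6 : (Finset.univ.filter fun k' : Fin (k * k) => (k' : ℕ) ≤ 0) = {⟨0, h⟩} := by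
      ext k'
      simp only [Finset.mem_filter, Finset.mem_univ, true_and, Finset.mem_singleton]
      constructor
      · intro h7
        exact Fin.ext (by simpa using h7)
      · rintro rfl
        exact le_rfl
    rw [h6, Finset.prod_singleton]
    have h2 : ((⟨0, h⟩ : Fin (k * k)) : ℕ) = 0 := rfl
    have h1 : gop x (.cl i v ⟨0, h⟩ (out x i (cel v ⟨0, h⟩)), .b) =
        .acc i v ⟨0, h⟩ (out x i (cel v ⟨0, h⟩)) := by
      dsimp only [gop]
      rw [if_neg hi, if_pos h2]
    rw [← h1]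
    exact Gen.op _ _ (hcl _) Gen.base
  | succ n ih =>
    intro h
    have h0 : n < k * k := by omega
    have h7 : (Finset.univ.filter fun k' : Fin (k * k) => (k' : ℕ) ≤ n + 1) =
        insert (⟨n + 1, h⟩ : Fin (k * k))
          (Finset.univ.filter fun k' : Fin (k * k) => (k' : ℕ) ≤ n) := by
      ext k'
      simp only [Finset.mem_filter, Finset.mem_univ, true_and, Finset.mem_insert]
      constructor
      · intro h7
        by_cases h8 : k' = ⟨n + 1, h⟩
        · exact Or.inl h8
        · refine Or.inr ?_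
          have : (k' : ℕ) ≠ n + 1 := fun h9 => h8 (Fin.ext h9)
          omega
      · rintro (rfl | h7)
        · exact le_rfl
        · omega
    have h8 : (⟨n + 1, h⟩ : Fin (k * k)) ∉
        Finset.univ.filter fun k' : Fin (k * k) => (k' : ℕ) ≤ n := by
      simp only [Finset.mem_filter, Finset.mem_univ, true_and]
      omega
    rw [h7, Finset.prod_insert h8, mul_comm (out x i (cel v ⟨n + 1, h⟩))]
    have h2 : i = i ∧ v = v ∧
        ((⟨n + 1, h⟩ : Fin (k * k)) : ℕ) = ((⟨n, h0⟩ : Fin (k * k)) : ℕ) + 1 :=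
      ⟨rfl, rfl, rfl⟩
    have h1 : gop x (.acc i v ⟨n, h0⟩
        (∏ k' ∈ Finset.univ.filter (fun k' : Fin (k * k) => (k' : ℕ) ≤ n), out x i (cel v k')),
        .cl i v ⟨n + 1, h⟩ (out x i (cel v ⟨n + 1, h⟩))) =
        .acc i v ⟨n + 1, h⟩
          ((∏ k' ∈ Finset.univ.filter (fun k' : Fin (k * k) => (k' : ℕ) ≤ n),
            out x i (cel v k')) * out x i (cel v ⟨n + 1, h⟩)) := by
      dsimp only [gop]
      rw [if_pos h2]
    rw [← h1]
    exact Gen.op _ _ (ih h0) (hcl _)

private theorem gen_par {l w k m p : ℕ} (x : Entry l w (k * k) m p → ZMod p) (d : Bool)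
    (q : Fin m) (i : Fin (l + 1))
    (v : Fin w) (hv : (i : ℕ) = l → (v : ℕ) = 0) (j : Fin (k * k)) (hj : (j : ℕ) + 1 = k * k)
    (hacc : ∀ u : Fin w, Gen (gop x) .b
      (.acc i.castSucc u j (gval (out x i.castSucc) u))) (n : ℕ) :
    ∀ h : n < w, Gen (gop x) .b (.par d q i v ⟨n, h⟩
      (∑ u ∈ Finset.univ.filter (fun u : Fin w => (u : ℕ) ≤ n),
        M w m p d q v u * gval (out x i.castSucc) u)) := by
  induction n with
  | zero =>
    intro h
    have h6 : (Finset.univ.filter fun u' : Fin w => (u' : ℕ) ≤ 0) = {⟨0, h⟩} := by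
      ext u'
      simp only [Finset.mem_filter, Finset.mem_univ, true_and, Finset.mem_singleton]
      constructor
      · intro h7
        exact Fin.ext (by simpa using h7)
      · rintro rfl
        exact le_rfl
    rw [h6, Finset.sum_singleton]
    have h2 : ((⟨0, h⟩ : Fin w) : ℕ) = 0 ∧ (j : ℕ) + 1 = k * k ∧
        ((i.castSucc : Fin (l + 2)) : ℕ) < l + 1 ∧
        (((i.castSucc : Fin (l + 2)) : ℕ) = l → (v : ℕ) = 0) := ⟨rfl, hj, i.isLt, hv⟩
    have hk : 0 < k * k := by omega
    have h1 : gop x (.acc i.castSucc ⟨0, h⟩ j (gval (out x i.castSucc) ⟨0, h⟩), .ff d q v) =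
        .par d q i v ⟨0, h⟩ (M w m p d q v ⟨0, h⟩ * gval (out x i.castSucc) ⟨0, h⟩) := by
      dsimp only [gop]
      rw [dif_pos h2]
      rfl
    rw [← h1]
    exact Gen.op _ _ (hacc _) (gen_ff x v hk d q)
  | succ n ih =>
    intro h
    have h0 : n < w := by omega
    have h7 : (Finset.univ.filter fun u' : Fin w => (u' : ℕ) ≤ n + 1) =
        insert (⟨n + 1, h⟩ : Fin w) (Finset.univ.filter fun u' : Fin w => (u' : ℕ) ≤ n) := by
      ext u'
      simp only [Finset.mem_filter, Finset.mem_univ, true_and, Finset.mem_insert]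
      constructor
      · intro h7
        by_cases h8 : u' = ⟨n + 1, h⟩
        · exact Or.inl h8
        · refine Or.inr ?_
          have : (u' : ℕ) ≠ n + 1 := fun h9 => h8 (Fin.ext h9)
          omega
      · rintro (rfl | h7)
        · exact le_rfl
        · omega
    have h8 : (⟨n + 1, h⟩ : Fin w) ∉ Finset.univ.filter fun u' : Fin w => (u' : ℕ) ≤ n := by
      simp only [Finset.mem_filter, Finset.mem_univ, true_and]
      omega
    rw [h7, Finset.sum_insert h8,
      add_comm (M w m p d q v ⟨n + 1, h⟩ * gval (out x i.castSucc) ⟨n + 1, h⟩)]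
    have h2 : (i : ℕ) = ((i.castSucc : Fin (l + 2)) : ℕ) ∧
        ((⟨n + 1, h⟩ : Fin w) : ℕ) = ((⟨n, h0⟩ : Fin w) : ℕ) + 1 ∧ (j : ℕ) + 1 = k * k :=
      ⟨rfl, rfl, hj⟩
    have h1 : gop x (.par d q i v ⟨n, h0⟩ (∑ u ∈ Finset.univ.filter (fun u : Fin w => (u : ℕ) ≤ n),
        M w m p d q v u * gval (out x i.castSucc) u),
          .acc i.castSucc ⟨n + 1, h⟩ j (gval (out x i.castSucc) ⟨n + 1, h⟩)) =
        .par d q i v ⟨n + 1, h⟩ (∑ u ∈ Finset.univ.filter (fun u : Fin w => (u : ℕ) ≤ n),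
          M w m p d q v u * gval (out x i.castSucc) u +
            M w m p d q v ⟨n + 1, h⟩ * gval (out x i.castSucc) ⟨n + 1, h⟩) := by
      dsimp only [gop]
      rw [if_pos h2]
    rw [← h1]
    exact Gen.op _ _ (ih h0) (hacc _)

private theorem gen_pre {l w k m p : ℕ} (x : Entry l w (k * k) m p → ZMod p) (d : Bool)
    (i : Fin (l + 1)) (v j : Fin w) (hj : (j : ℕ) + 1 = w) (L : Fin m → ZMod p)
    (hpar : ∀ q : Fin m, Gen (gop x) .b (.par d q i v j (L q))) (n : ℕ) :
    ∀ h : n < m, Gen (gop x) .b (.pre d i v ⟨n, h⟩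
      (fun q' : Fin m => if (q' : ℕ) ≤ n then L q' else 0)) := by
  induction n with
  | zero =>
    intro h
    have h6 : (fun q' : Fin m => if (q' : ℕ) ≤ 0 then L q' else 0) =
        Function.update (0 : Fin m → ZMod p) (⟨0, h⟩ : Fin m) (L ⟨0, h⟩) := by
      funext q'
      by_cases h7 : q' = ⟨0, h⟩
      · rw [h7, Function.update_self, if_pos (le_refl _)]
      · have h8 : ¬ ((q' : ℕ) ≤ 0) := fun h9 => h7 (Fin.ext (by simpa using h9))
        rw [Function.update_of_ne h7, if_neg h8]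
        rfl
    have h2 : ((⟨0, h⟩ : Fin m) : ℕ) = 0 ∧ (j : ℕ) + 1 = w := ⟨rfl, hj⟩
    have h1 : gop x (.par d ⟨0, h⟩ i v j (L ⟨0, h⟩), .b) =
        .pre d i v ⟨0, h⟩ (Function.update 0 (⟨0, h⟩ : Fin m) (L ⟨0, h⟩)) := by
      dsimp only [gop]
      rw [if_pos h2]
    rw [h6, ← h1]
    exact Gen.op _ _ (hpar _) Gen.base
  | succ n ih =>
    intro h
    have h0 : n < m := by omega
    have h6 : (fun q' : Fin m => if (q' : ℕ) ≤ n + 1 then L q' else 0) =
        Function.update (fun q' : Fin m => if (q' : ℕ) ≤ n then L q' else 0)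
          (⟨n + 1, h⟩ : Fin m) (L ⟨n + 1, h⟩) := by
      funext q'
      by_cases h7 : q' = ⟨n + 1, h⟩
      · rw [h7, Function.update_self, if_pos (le_refl _)]
      · have h8 : (q' : ℕ) ≠ n + 1 := fun h9 => h7 (Fin.ext h9)
        rw [Function.update_of_ne h7]
        by_cases h9 : (q' : ℕ) ≤ n
        · rw [if_pos h9, if_pos (by omega)]
        · rw [if_neg h9, if_neg (by omega)]
    have h2 : d = d ∧ i = i ∧ v = v ∧
        ((⟨n + 1, h⟩ : Fin m) : ℕ) = ((⟨n, h0⟩ : Fin m) : ℕ) + 1 ∧ (j : ℕ) + 1 = w :=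
      ⟨rfl, rfl, rfl, rfl, hj⟩
    have h1 : gop x (.pre d i v ⟨n, h0⟩ (fun q' : Fin m => if (q' : ℕ) ≤ n then L q' else 0),
        .par d ⟨n + 1, h⟩ i v j (L ⟨n + 1, h⟩)) =
        .pre d i v ⟨n + 1, h⟩ (Function.update
          (fun q' : Fin m => if (q' : ℕ) ≤ n then L q' else 0) (⟨n + 1, h⟩ : Fin m)
            (L ⟨n + 1, h⟩)) := by
      dsimp only [gop]
      rw [if_pos h2]
    rw [h6, ← h1]
    exact Gen.op _ _ (ih h0) (hpar _)

private theorem gen_fin {l w k m p : ℕ} (x : Entry l w (k * k) m p → ZMod p) (d : Bool)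
    (i : Fin (l + 1)) (v : Fin w) (q : Fin m) (hq : (q : ℕ) + 1 = m) (f : Fin m → ZMod p)
    (hpre : Gen (gop x) .b (.pre d i v q f)) (n : ℕ) :
    ∀ h : n < k, ((i : ℕ) = l → n = 0) → Gen (gop x) .b (.fin d i v f ⟨n, h⟩) := by
  induction n with
  | zero =>
    intro h _
    have h2 : (q : ℕ) + 1 = m ∧ 0 < k := ⟨hq, h⟩
    have h1 : gop x (.pre d i v q f, .b) = .fin d i v f ⟨0, h⟩ := by
      dsimp only [gop]
      rw [dif_pos h2]
    rw [← h1]
    exact Gen.op _ _ hpre Gen.base
  | succ n ih =>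
    intro h hn
    have h0 : n < k := by omega
    have hi : (i : ℕ) ≠ l := fun h' => by
      have := hn h'
      omega
    have h2 : (i : ℕ) ≠ l ∧ ((⟨n, h0⟩ : Fin k) : ℕ) + 1 < k := ⟨hi, h⟩
    have h1 : gop x (.fin d i v f ⟨n, h0⟩, .b) = .fin d i v f ⟨n + 1, h⟩ := by
      dsimp only [gop]
      rw [dif_pos h2]
    rw [← h1]
    exact Gen.op _ _ (ih h0 fun h' => absurd h' hi) Gen.base

private theorem cel_zero {w K : ℕ} (v : Fin w) (k : Fin K) (h : ((cel v k : Fin (w * K)) : ℕ) = 0) :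
    (v : ℕ) = 0 ∧ (k : ℕ) = 0 := by
  rw [cel_val] at h
  have hK : 0 < K := lt_of_le_of_lt (Nat.zero_le _) k.isLt
  refine ⟨?_, by omega⟩
  have h1 : K * (v : ℕ) = 0 := by omega
  rcases Nat.mul_eq_zero.1 h1 with h2 | h2
  · omega
  · exact h2

private theorem gen_cl {l w k m p : ℕ} (hm : 0 < m) (x : Entry l w (k * k) m p → ZMod p)
    (i : Fin (l + 2)) :
    ∀ (v : Fin w) (j : Fin (k * k)), (i = Fin.last (l + 1) → (v : ℕ) = 0 ∧ (j : ℕ) = 0) →
      Gen (gop x) .b (.cl i v j (out x i (cel v j))) := by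
  refine Fin.induction ?_ (fun i ih => ?_) i
  · intro v j _
    have h1 : gop x (.c v, .kk j) = .cl 0 v j (out x 0 (cel v j)) := rfl
    rw [← h1]
    exact Gen.op _ _ (gen_c x v v.isLt) (gen_kk x v j j.isLt)
  · intro v j hv
    have hw : 0 < w := lt_of_le_of_lt (Nat.zero_le _) v.isLt
    have hK : 0 < k * k := lt_of_le_of_lt (Nat.zero_le _) j.isLt
    have hn : w - 1 < w := by omega
    have hm1 : m - 1 < m := by omega
    have hK1 : k * k - 1 < k * k := by omega
    have hlast : i.castSucc ≠ Fin.last (l + 1) := fun h => by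
      have h1 := congrArg Fin.val h
      simp only [Fin.val_castSucc, Fin.val_last] at h1
      have := i.isLt
      omega
    have hacc : ∀ u : Fin w, Gen (gop x) .b
        (.acc i.castSucc u ⟨k * k - 1, hK1⟩ (gval (out x i.castSucc) u)) := by
      intro u
      have h3 := gen_acc x i.castSucc hlast u (fun k' => ih u k' fun h => absurd h hlast)
        (k * k - 1) hK1
      have h8 : (Finset.univ.filter fun k' : Fin (k * k) => (k' : ℕ) ≤ k * k - 1) =
          Finset.univ := by
        ext k'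
        simp only [Finset.mem_filter, Finset.mem_univ, true_and, iff_true]
        have := k'.isLt
        omega
      rw [h8] at h3
      exact h3
    have hv' : (i : ℕ) = l → (v : ℕ) = 0 ∧ (j : ℕ) = 0 := fun h => hv (Fin.ext (by simp [h]))
    have hk1 : ((⟨k * k - 1, hK1⟩ : Fin (k * k)) : ℕ) + 1 = k * k := by
      simp only
      omega
    have hw1 : ((⟨w - 1, hn⟩ : Fin w) : ℕ) + 1 = w := by
      simp only
      omega
    have hm2 : ((⟨m - 1, hm1⟩ : Fin m) : ℕ) + 1 = m := by
      simp only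
      omega
    have h8 : (Finset.univ.filter fun u' : Fin w => (u' : ℕ) ≤ w - 1) = Finset.univ := by
      ext u'
      simp only [Finset.mem_filter, Finset.mem_univ, true_and, iff_true]
      have := u'.isLt
      omega
    have h3 : ∀ (d : Bool) (q : Fin m), Gen (gop x) .b
        (.par d q i v ⟨w - 1, hn⟩ (lin w m p d q v (gval (out x i.castSucc)))) := by
      intro d q
      have h3' := gen_par x d q i v (fun h => (hv' h).1) ⟨k * k - 1, hK1⟩ hk1 hacc (w - 1) hn
      rw [h8] at h3'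
      exact h3'
    have h5 : ∀ d : Bool, Gen (gop x) .b (.pre d i v ⟨m - 1, hm1⟩
        (fun q' : Fin m => lin w m p d q' v (gval (out x i.castSucc)))) := by
      intro d
      have h5' := gen_pre x d i v ⟨w - 1, hn⟩ hw1
        (fun q => lin w m p d q v (gval (out x i.castSucc))) (h3 d) (m - 1) hm1
      have h9 : (fun q' : Fin m => if (q' : ℕ) ≤ m - 1 then
          lin w m p d q' v (gval (out x i.castSucc)) else 0) =
          fun q' : Fin m => lin w m p d q' v (gval (out x i.castSucc)) := by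
        funext q'
        have := q'.isLt
        rw [if_pos (by omega)]
      rw [h9] at h5'
      exact h5'
    have hj0 : (i : ℕ) = l → ((grp j : Fin k) : ℕ) = 0 ∧ ((sub j : Fin k) : ℕ) = 0 := by
      intro h
      refine cel_zero _ _ ?_
      rw [cel_grp_sub]
      exact (hv' h).2
    have h6 := gen_fin x false i v ⟨m - 1, hm1⟩ hm2 _ (h5 false) (grp j : Fin k) (grp j).isLt
      fun h => (hj0 h).1
    have h7 := gen_fin x true i v ⟨m - 1, hm1⟩ hm2 _ (h5 true) (sub j : Fin k) (sub j).isLt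
      fun h => (hj0 h).2
    have h4 : (false : Bool) = false ∧ (true : Bool) = true ∧ i = i ∧ v = v := ⟨rfl, rfl, rfl, rfl⟩
    have ha : (fun e : Bool => cond e (fun q' : Fin m => lin w m p true q' v
        (gval (out x i.castSucc))) (fun q' : Fin m => lin w m p false q' v
          (gval (out x i.castSucc)))) = lins w m p v (gval (out x i.castSucc)) := by
      funext e
      cases e <;> rfl
    have h1 : gop x (.fin false i v (fun q' : Fin m => lin w m p false q' v
        (gval (out x i.castSucc))) (grp j : Fin k),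
        .fin true i v (fun q' : Fin m => lin w m p true q' v
        (gval (out x i.castSucc))) (sub j : Fin k)) =
        .cl i.succ v j (out x i.succ (cel v j)) := by
      dsimp only [gop]
      rw [if_pos h4, ha, cel_grp_sub, out_succ, grp_cel]
    rw [← h1]
    exact Gen.op _ _ h6 h7

/-- G3: if the value of the root is not `0`, the target is generated. -/
theorem gen_top {l w k m p : ℕ} (hm : 0 < m) (x : Entry l w (k * k) m p → ZMod p) (h : Yes x) :
    Gen (gop x) .b .top := by
  obtain ⟨u, hu, h⟩ := h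
  have hc : cel (grp u) (sub u) = u := cel_grp_sub u
  obtain ⟨hv, hk⟩ := cel_zero (grp u) (sub u) (by rw [hc]; exact hu)
  rw [← hc] at h
  have h2 : ((grp u : Fin w) : ℕ) = 0 ∧ ((sub u : Fin (k * k)) : ℕ) = 0 ∧
      out x (Fin.last (l + 1)) (cel (grp u) (sub u)) ≠ 0 := ⟨hv, hk, h⟩
  have h1 : gop x (.cl (Fin.last (l + 1)) (grp u) (sub u)
      (out x (Fin.last (l + 1)) (cel (grp u) (sub u))), .b) = .top := by
    dsimp only [gop]
    rw [if_pos rfl, if_pos h2]
  rw [← h1]
  exact Gen.op _ _ (gen_cl hm x _ _ _ fun _ => ⟨hv, hk⟩) Gen.base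

end Pool.Agent.UZ
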