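import Mathlib

/-!
The numbers of the embedding, `k * k` cells for each node, `2 * m` arguments.
-/

set_option autoImplicit false

namespace Pool.Agent.UZ

theorem choose_params (l t m k R A r s n : ℕ) (hl : 0 < l) (ht : 0 < t) (hm : 0 < m) (hk : 0 < k)
    (hR : R ≤ t * k ^ 2) (hs : (A + 1) * (r + 1) ≤ s ^ (2 * m))
    (hn : 2 ^ 29 * l * m * t * ((k ^ 2 + m ^ 2 * t) * (m ^ 2 * t + s) +
      m * k * (2 ^ 11 * (m ^ 2 * t + s)) ^ m) ≤ n + 2) :
    ∃ w p : ℕ, p.Prime ∧ 128 * (t * (k * k) + R) ≤ w * (k * k) ∧ 64 * (m * t) ≤ w ∧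
      (2 * m + 1) * w ≤ p ∧ 32 * 9 ^ m * ((A + 1) * (2 * r + 1)) ≤ (p - 1) ^ (2 * m) ∧
      2 + w + k * k + 2 * m * w + 2 * ((l + 2) * w * (k * k) * p) + 2 * m * ((l + 1) * w * w * p) +
        2 * ((l + 1) * w * m * p ^ m) + 2 * ((l + 1) * w * k * p ^ m) ≤ n + 2 := by
  have hmt : 0 < m * t := Nat.mul_pos hm ht
  obtain ⟨q, hq⟩ : ∃ q, q = (2 * m + 1) * (256 * m * t) + 24 * s := ⟨_, rfl⟩
  have hq1 : 0 < q := by
    have h1 : 0 < (2 * m + 1) * (256 * m * t) := by positivity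
    omega
  obtain ⟨p, hp, hp1, hp2⟩ := Nat.exists_prime_lt_and_le_two_mul q (by omega)
  refine ⟨256 * m * t, p, hp, ?_, ?_, by omega, ?_, ?_⟩
  · have h1 : R ≤ t * (k * k) := by rw [pow_two] at hR; exact hR
    have h2 : 256 * m * t * (k * k) = 256 * (m * (t * (k * k))) := by ring
    have h3 : 1 * (t * (k * k)) ≤ m * (t * (k * k)) := Nat.mul_le_mul_right _ hm
    omega
  · have h1 : 256 * m * t = 256 * (m * t) := by ring
    omega
  · have h1 : (A + 1) * (2 * r + 1) ≤ 2 * ((A + 1) * (r + 1)) := by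
      calc (A + 1) * (2 * r + 1) ≤ (A + 1) * (2 * (r + 1)) := Nat.mul_le_mul_left _ (by omega)
        _ = 2 * ((A + 1) * (r + 1)) := by ring
    have h2 : 24 * s ≤ p - 1 := by omega
    have h3 : 64 ≤ 64 ^ m := Nat.le_self_pow hm.ne' 64
    calc 32 * 9 ^ m * ((A + 1) * (2 * r + 1)) ≤ 32 * 9 ^ m * (2 * s ^ (2 * m)) :=
          Nat.mul_le_mul_left _ (h1.trans (Nat.mul_le_mul_left _ hs))
      _ = 64 * (9 ^ m * s ^ (2 * m)) := by ring
      _ ≤ 64 ^ m * (9 ^ m * s ^ (2 * m)) := Nat.mul_le_mul_right _ h3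
      _ = (24 * s) ^ (2 * m) := by
          rw [mul_pow, pow_mul 24 2 m, ← mul_assoc, ← mul_pow]
          norm_num
      _ ≤ (p - 1) ^ (2 * m) := Nat.pow_le_pow_left h2 _
  · obtain ⟨Q, hQ⟩ : ∃ Q, Q = m ^ 2 * t + s := ⟨_, rfl⟩
    rw [← hQ] at hn
    have hm2 : m ≤ m ^ 2 := by nlinarith
    have hmt2 : m * t ≤ m ^ 2 * t := Nat.mul_le_mul_right _ hm2
    have hQ1 : 1 ≤ Q := by omega
    have hqQ : q ≤ 768 * Q := by
      have h1 : (2 * m + 1) * (256 * m * t) = 512 * (m ^ 2 * t) + 256 * (m * t) := by ring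
      omega
    have hpQ : p ≤ 1536 * Q := by omega
    obtain ⟨W, hW⟩ : ∃ W, W = (2 ^ 11 * Q) ^ m := ⟨_, rfl⟩
    have hpm : p ^ m ≤ W := by
      rw [hW]
      exact Nat.pow_le_pow_left (by omega) m
    rw [← hW] at hn
    obtain ⟨X, hX⟩ : ∃ X, X = l * (m * t) * (k ^ 2 * Q) := ⟨_, rfl⟩
    obtain ⟨Y, hY⟩ : ∃ Y, Y = l * (m * t) * (m ^ 2 * t * Q) := ⟨_, rfl⟩
    obtain ⟨Z, hZ⟩ : ∃ Z, Z = l * (m * t) * (m * k * W) := ⟨_, rfl⟩
    have e0 : 2 ^ 29 * l * m * t * ((k ^ 2 + m ^ 2 * t) * Q + m * k * W) =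
        536870912 * X + 536870912 * Y + 536870912 * Z := by
      rw [hX, hY, hZ]; ring
    rw [e0] at hn
    have hlt : 1 ≤ l * (m * t) := Nat.mul_pos hl hmt
    have e1 : k * k ≤ X := by
      rw [hX]
      calc k * k = 1 * (k ^ 2 * 1) := by ring
        _ ≤ l * (m * t) * (k ^ 2 * Q) := by gcongr
    have e2 : m ^ 2 * t ≤ Y := by
      rw [hY]
      calc m ^ 2 * t = 1 * (m ^ 2 * t * 1) := by ring
        _ ≤ l * (m * t) * (m ^ 2 * t * Q) := by gcongr
    have e3 : 2 * ((l + 2) * (256 * m * t) * (k * k) * p) ≤ 2359296 * X := by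
      calc 2 * ((l + 2) * (256 * m * t) * (k * k) * p)
          ≤ 2 * ((3 * l) * (256 * m * t) * (k * k) * (1536 * Q)) := by gcongr; omega
        _ = 2359296 * X := by rw [hX]; ring
    have e4 : 2 * m * ((l + 1) * (256 * m * t) * (256 * m * t) * p) ≤ 402653184 * Y := by
      calc 2 * m * ((l + 1) * (256 * m * t) * (256 * m * t) * p)
          ≤ 2 * m * ((2 * l) * (256 * m * t) * (256 * m * t) * (1536 * Q)) := by gcongr; omega
        _ = 402653184 * Y := by rw [hY]; ring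
    have hWk : W * m ≤ m * k * W := by
      calc W * m = m * 1 * W := by ring
        _ ≤ m * k * W := by gcongr; omega
    have hWm : W * k ≤ m * k * W := by
      calc W * k = 1 * k * W := by ring
        _ ≤ m * k * W := by gcongr; omega
    have e5 : 2 * ((l + 1) * (256 * m * t) * m * p ^ m) ≤ 1024 * Z := by
      calc 2 * ((l + 1) * (256 * m * t) * m * p ^ m)
          ≤ 2 * ((2 * l) * (256 * m * t) * m * W) := by gcongr; omega
        _ = 1024 * (l * (m * t) * (W * m)) := by ring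
        _ ≤ 1024 * Z := by rw [hZ]; gcongr
    have e6 : 2 * ((l + 1) * (256 * m * t) * k * p ^ m) ≤ 1024 * Z := by
      calc 2 * ((l + 1) * (256 * m * t) * k * p ^ m)
          ≤ 2 * ((2 * l) * (256 * m * t) * k * W) := by gcongr; omega
        _ = 1024 * (l * (m * t) * (W * k)) := by ring
        _ ≤ 1024 * Z := by rw [hZ]; gcongr
    have e7 : 256 * m * t = 256 * (m * t) := by ring
    have e8 : 2 * m * (256 * m * t) = 512 * (m ^ 2 * t) := by ring
    have e9 : 1 ≤ m ^ 2 * t := by omega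
    omega

end Pool.Agent.UZ
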