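import Pool.Agent.UZ.Cauchy

/-! # The arguments of `t` nodes determine `2 m t` cells of different nodes -/

set_option autoImplicit false

namespace Pool.Agent.UZ

open Finset Pool.Agent.UW
open Pool.Agent.UY (cel grp sub gval cel_inj)

/-- the labels of the cells `(v, k)`, `v ∈ Y`, are determined by the arguments of the nodes in `T` -/
theorem args_inj {l w K m p : ℕ} [Fact p.Prime] (hp : (2 * m + 1) * w ≤ p) (i : Fin l) (k : Fin K)
    (Y T : Finset (Fin w)) (hTY : Y.card ≤ 2 * m * T.card) (D D' : Lab l (w * K) p)
    (hD : ∀ j u, (j = i.castSucc.castSucc → ∀ v ∈ Y, u ≠ cel v k) → D j u = D' j u)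
    (h : ∀ v ∈ T, (argG D i.succ.castSucc v : Arg m p) = argG D' i.succ.castSucc v) : D = D' := by
  classical
  have hc := cauchy' hp T Y hTY
    (fun v => gval (fun u => (D i.castSucc.castSucc u : ZMod p)) v -
      gval (fun u => (D' i.castSucc.castSucc u : ZMod p)) v) (by
      intro v hv
      have h1 : gval (fun u => (D i.castSucc.castSucc u : ZMod p)) v =
          gval (fun u => (D' i.castSucc.castSucc u : ZMod p)) v := by
        unfold gval
        refine prod_congr rfl fun k' _ => ?_
        have h2 := hD i.castSucc.castSucc (cel v k') fun _ v' hv' he =>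
          hv ((cel_inj he).1 ▸ hv')
        simp only [h2]
      rw [h1, sub_self]) (by
      intro v hv d q
      have h0 := h v hv
      have h1 : ∑ u, M w m p d q v u * gval (fun u => (D i.castSucc.castSucc u : ZMod p)) u =
          ∑ u, M w m p d q v u * gval (fun u => (D' i.castSucc.castSucc u : ZMod p)) u :=
        congrFun (congrFun h0 d) q
      simp only [mul_sub, sum_sub_distrib, h1, sub_self])
  funext j u
  by_cases hju : j = i.castSucc.castSucc ∧ ∃ v ∈ Y, u = cel v k
  · obtain ⟨rfl, v, hv, rfl⟩ := hju
    have h1 := congrFun hc v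
    simp only [Pi.zero_apply, sub_eq_zero] at h1
    unfold gval at h1
    rw [← mul_prod_erase univ _ (mem_univ k),
      ← mul_prod_erase univ (fun k' => (D' i.castSucc.castSucc (cel v k') : ZMod p))
        (mem_univ k)] at h1
    have h2 : ∏ k' ∈ univ.erase k, (D i.castSucc.castSucc (cel v k') : ZMod p) =
        ∏ k' ∈ univ.erase k, (D' i.castSucc.castSucc (cel v k') : ZMod p) := by
      refine prod_congr rfl fun k' hk' => ?_
      rw [hD i.castSucc.castSucc (cel v k') fun _ v' _ he =>
        (ne_of_mem_erase hk') (cel_inj he).2]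
    rw [h2] at h1
    have h3 : ∏ k' ∈ univ.erase k, (D' i.castSucc.castSucc (cel v k') : ZMod p) ≠ 0 :=
      prod_ne_zero_iff.2 fun k' _ => (D' i.castSucc.castSucc (cel v k')).ne_zero
    exact Units.ext (mul_right_cancel₀ h3 h1)
  · exact hD j u fun hj v hv hu => hju ⟨hj, v, hv, hu⟩

end Pool.Agent.UZ
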