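import Pool.Agent.UZ.Defs

/-! # Values of the cells -/

set_option autoImplicit false

namespace Pool.Agent.UZ

open Pool.Agent.UW
open Pool.Agent.UY (cel grp sub gval)

theorem out_eq {l w K m p : ℕ} (x : Entry l w K m p → ZMod p) (i : Fin (l + 2)) (u : Fin (w * K)) :
    out x i u = x (i, u, arg x i u) := by
  refine Fin.cases ?_ (fun i => ?_) i
  · rfl
  · rfl

private theorem inp_self {l w K m p : ℕ} (D : Lab l (w * K) p) (i : Fin (l + 2))
    (u : Fin (w * K)) :
    (inp D : Entry l w K m p → ZMod p) (i, u, (argD D i u : Arg m p)) = D i u := if_pos rfl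

theorem out_inp {l w K m p : ℕ} (D : Lab l (w * K) p) (i : Fin (l + 2)) (u : Fin (w * K)) :
    out (inp D : Entry l w K m p → ZMod p) i u = D i u := by
  revert u
  refine Fin.induction ?_ (fun i ih => ?_) i
  · intro u
    exact inp_self D 0 u
  · intro u
    rw [out_succ]
    have h : lins w m p (grp u) (gval (out (inp D : Entry l w K m p → ZMod p) i.castSucc)) =
        (argD D i.succ u : Arg m p) :=
      congrArg (fun f => lins w m p (grp u) (gval f)) (funext fun u' => ih u')
    rw [h]
    exact inp_self D i.succ u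

theorem arg_inp {l w K m p : ℕ} (D : Lab l (w * K) p) (i : Fin (l + 2)) (u : Fin (w * K)) :
    arg (inp D : Entry l w K m p → ZMod p) i u = argD D i u := by
  refine Fin.cases rfl (fun i => ?_) i
  rw [arg_succ, argD_succ]
  exact congrArg (fun f => lins w m p (grp u) (gval f)) (funext fun u' => out_inp D _ u')

theorem yes_inp {l w K m p : ℕ} [Fact p.Prime] (hw : 0 < w * K) (D : Lab l (w * K) p) :
    Yes (inp D : Entry l w K m p → ZMod p) :=
  ⟨⟨0, hw⟩, rfl, by
    rw [out_inp]
    exact (D (Fin.last (l + 1)) ⟨0, hw⟩).ne_zero⟩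

private theorem M_ne_zero {w m p : ℕ} [Fact p.Prime] (hp : (2 * m + 1) * w ≤ p) (d : Bool)
    (q : Fin m) (v u : Fin w) : M w m p d q v u ≠ 0 := by
  unfold M
  refine inv_ne_zero fun h => ?_
  have h1 := sub_eq_zero.1 h
  rw [ZMod.natCast_eq_natCast_iff'] at h1
  have hv := v.isLt
  have hu := u.isLt
  have hq := q.isLt
  have hc : (if d = true then m else 0 : ℕ) ≤ m := by
    split_ifs <;> omega
  have h2 : 2 * m * (v : ℕ) + 2 * m ≤ 2 * m * w := by
    have h3 : 2 * m * ((v : ℕ) + 1) ≤ 2 * m * w := Nat.mul_le_mul_left _ (by omega)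
    have h4 : 2 * m * ((v : ℕ) + 1) = 2 * m * (v : ℕ) + 2 * m := by ring
    omega
  have h5 : (2 * m + 1) * w = 2 * m * w + w := by ring
  rw [Nat.mod_eq_of_lt (by omega), Nat.mod_eq_of_lt (by omega)] at h1
  omega

/-- below the last two levels, the values for `bad D u` are the labels -/
private theorem out_bad {l w K m p : ℕ} (D : Lab l (w * K) p) (v : Fin (w * K)) (i : Fin (l + 2)) :
    (i : ℕ) < l → ∀ u, out (bad D v : Entry l w K m p → ZMod p) i u = D i u := by
  refine Fin.induction ?_ (fun i ih => ?_) i
  · intro h0 u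
    rw [out_zero]
    unfold bad
    rw [if_neg]
    · exact inp_self D 0 u
    · rintro ⟨h, -⟩
      have h1 := congrArg Fin.val h
      simp at h1
      simp at h0
      omega
  · intro h0 u
    have h1 : ((i.castSucc : Fin (l + 2)) : ℕ) < l := by
      rw [Fin.val_succ] at h0
      rw [Fin.val_castSucc]
      omega
    rw [out_succ]
    have h : lins w m p (grp u) (gval (out (bad D v : Entry l w K m p → ZMod p) i.castSucc)) =
        (argD D i.succ u : Arg m p) :=
      congrArg (fun f => lins w m p (grp u) (gval f)) (funext fun u' => ih h1 u')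
    rw [h]
    unfold bad
    rw [if_neg]
    · exact inp_self D i.succ u
    · rintro ⟨h2, -⟩
      have h3 := congrArg Fin.val h2
      change ((i.succ : Fin (l + 2)) : ℕ) = _ at h3
      rw [Fin.val_castSucc, Fin.val_last] at h3
      omega

private theorem out_bad_last {l w K m p : ℕ} (D : Lab l (w * K) p) (v u : Fin (w * K)) :
    out (bad D v : Entry l w K m p → ZMod p) (Fin.last l).castSucc u = if u = v then 0 else
      (D (Fin.last l).castSucc u : ZMod p) := by
  have harg : arg (bad D v : Entry l w K m p → ZMod p) (Fin.last l).castSucc u =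
      argD D (Fin.last l).castSucc u := by
    rcases l with _ | l
    · rfl
    · have e : (Fin.last (l + 1)).castSucc = (Fin.last l).castSucc.succ := rfl
      rw [e, arg_succ, argD_succ]
      refine congrArg (fun f => lins w m p (grp u) (gval f)) (funext fun u' => ?_)
      exact out_bad D v _ (by simp) u'
  rw [out_eq, harg]
  unfold bad
  by_cases h : u = v
  · rw [if_pos ⟨rfl, h⟩, if_pos h]
  · rw [if_neg fun h1 => h h1.2, if_neg h]
    exact inp_self D _ u

/-- the node of the cell `u` has the value `0` -/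
private theorem gval_bad_self {l w K m p : ℕ} (D : Lab l (w * K) p) (u : Fin (w * K)) :
    gval (out (bad D u : Entry l w K m p → ZMod p) (Fin.last l).castSucc) (grp u) = 0 := by
  refine Finset.prod_eq_zero (Finset.mem_univ (sub u)) ?_
  rw [UY.cel_grp_sub, out_bad_last, if_pos rfl]

/-- the other nodes keep their values -/
private theorem gval_bad_other {l w K m p : ℕ} (D : Lab l (w * K) p) (u : Fin (w * K)) (v : Fin w)
    (hv : v ≠ grp u) :
    gval (out (bad D u : Entry l w K m p → ZMod p) (Fin.last l).castSucc) v =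
      gval (fun u' => (D (Fin.last l).castSucc u' : ZMod p)) v := by
  refine Finset.prod_congr rfl fun k _ => ?_
  rw [out_bad_last, if_neg]
  intro h
  refine hv ?_
  rw [← h, UY.grp_cel]

theorem not_yes_bad {l w K m p : ℕ} [Fact p.Prime] (hm : 0 < m) (hp : (2 * m + 1) * w ≤ p)
    (D : Lab l (w * K) p) (u : Fin (w * K)) : ¬ Yes (bad D u : Entry l w K m p → ZMod p) := by
  rintro ⟨u0, -, h⟩
  refine h ?_
  have e : Fin.last (l + 1) = (Fin.last l).succ := rfl
  rw [e, out_succ]
  have hsum : lin w m p false ⟨0, hm⟩ (grp u0)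
        (gval (out (bad D u : Entry l w K m p → ZMod p) (Fin.last l).castSucc)) =
      lin w m p false ⟨0, hm⟩ (grp u0) (gval fun u' => (D (Fin.last l).castSucc u' : ZMod p)) -
        M w m p false ⟨0, hm⟩ (grp u0) (grp u) *
          gval (fun u' => (D (Fin.last l).castSucc u' : ZMod p)) (grp u) := by
    unfold lin
    rw [eq_sub_iff_add_eq,
      ← Finset.add_sum_erase _ _ (Finset.mem_univ (grp u)),
      ← Finset.add_sum_erase
        (f := fun v => M w m p false ⟨0, hm⟩ (grp u0) v *
          gval (fun u' => (D (Fin.last l).castSucc u' : ZMod p)) v) _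
        (Finset.mem_univ (grp u)), gval_bad_self, mul_zero, zero_add, add_comm]
    refine congrArg₂ _ rfl (Finset.sum_congr rfl fun v hv => ?_)
    rw [gval_bad_other D u v (Finset.ne_of_mem_erase hv)]
  unfold bad
  rw [if_neg]
  · unfold inp
    rw [if_neg]
    change lins w m p (grp u0)
        (gval (out (bad D u : Entry l w K m p → ZMod p) (Fin.last l).castSucc)) ≠
      argD D (Fin.last l).succ u0
    intro h0
    have h1 := congrFun (congrFun h0 false) ⟨0, hm⟩
    change lin w m p false ⟨0, hm⟩ (grp u0)
        (gval (out (bad D u : Entry l w K m p → ZMod p) (Fin.last l).castSucc)) =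
      lin w m p false ⟨0, hm⟩ (grp u0)
        (gval fun u' => (D (Fin.last l).castSucc u' : ZMod p)) at h1
    rw [hsum, sub_eq_self] at h1
    rcases mul_eq_zero.1 h1 with h2 | h2
    · exact M_ne_zero hp false ⟨0, hm⟩ (grp u0) (grp u) h2
    · exact UY.gval_ne D _ _ h2
  · rintro ⟨h1, -⟩
    have h2 := congrArg Fin.val h1
    change (((Fin.last l).succ : Fin (l + 2)) : ℕ) = _ at h2
    rw [Fin.val_castSucc, Fin.val_succ] at h2
    omega

end Pool.Agent.UZ
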