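import Pool.Agent.UZ.TWaste
import Pool.Agent.UZ.Cauchy
import Pool.Agent.UZ.Values
import Pool.Agent.UW.Class

/-!
The class bound and the class count for programs with forks.
-/

set_option autoImplicit false

namespace Pool.Agent.UZ

open Finset Pool.Agent.UW
open Pool.Agent.UY (cel grp sub gval grp_cel sub_cel cel_grp_sub cel_val cel_inj gval_ne)

variable {S : Type}

/-- The nodes and arguments of level `j` at which a tree reads irrelevant entries. -/
noncomputable def tirr {l w K m p : ℕ} [NeZero p] (D : Lab l (w * K) p) (j : Fin (l + 2))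
    (T : Tree (Entry l w K m p) (ZMod p) S) : Finset (Fin w × (Arg m p)) := by
  classical
  exact univ.filter (fun vb => ∃ u : Fin (w * K), grp u = vb.1 ∧
    ((j, u, vb.2) : Entry l w K m p) ∈ treads T \ relevant (inp (m := m) D))

theorem mem_tirr {l w K m p : ℕ} [NeZero p] (D : Lab l (w * K) p) (j : Fin (l + 2))
    (T : Tree (Entry l w K m p) (ZMod p) S) (v : Fin w) (b : Arg m p) :
    (v, b) ∈ tirr D j T ↔ ∃ u : Fin (w * K), grp u = v ∧
      ((j, u, b) : Entry l w K m p) ∈ treads T \ relevant (inp (m := m) D) := by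
  unfold tirr
  simp only [mem_filter, mem_univ, true_and]

theorem tirr_card {l w K m p : ℕ} [NeZero p] (D : Lab l (w * K) p) (j : Fin (l + 2))
    (T : Tree (Entry l w K m p) (ZMod p) S) (r : ℕ)
    (h : (treads T \ relevant (inp (m := m) D)).encard ≤ r) : (tirr D j T).card ≤ r := by
  classical
  have h1 : (↑(tirr D j T) : Set (Fin w × (Arg m p))) ⊆
      (fun e : Entry l w K m p => (grp e.2.1, e.2.2)) '' (treads T \ relevant (inp (m := m) D)) := by
    rintro ⟨v, b⟩ hvb
    obtain ⟨u, hu, he⟩ := (mem_tirr D j T v b).1 hvb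
    exact ⟨(j, u, b), he, by rw [← hu]⟩
  have h2 := ((Set.encard_le_encard h1).trans (Set.encard_image_le _ _)).trans h
  rw [Set.encard_coe_eq_coe_finsetCard] at h2
  exact_mod_cast h2

/-- The cells with number `k` of the nodes `Y`. -/
def cells {w K : ℕ} (k : Fin K) (Y : Finset (Fin w)) : Finset (Fin (w * K)) := by
  classical
  exact Y.image (fun v => cel v k)

theorem mem_cells {w K : ℕ} (k : Fin K) (Y : Finset (Fin w)) (v : Fin w) (k' : Fin K) :
    cel v k' ∈ cells k Y ↔ v ∈ Y ∧ k' = k := by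
  unfold cells
  rw [mem_image]
  constructor
  · rintro ⟨v', hv', h⟩
    obtain ⟨h1, h2⟩ := cel_inj h
    exact ⟨h1 ▸ hv', h2.symm⟩
  · rintro ⟨h1, h2⟩
    exact ⟨v, h1, by rw [h2]⟩

theorem card_cells {w K : ℕ} (k : Fin K) (Y : Finset (Fin w)) : (cells k Y).card = Y.card := by
  unfold cells
  exact card_image_of_injective _ fun _ _ h => (cel_inj h).1

/-- One class (`2 m t` free labels) has at most `((A + 1) (2 r + 1)) ^ t` labelings. -/
theorem tclass_card {l w K m p : ℕ} [Fact p.Prime] (hp : (2 * m + 1) * w ≤ p) (B : Prog (Entry l w K m p) (ZMod p) S)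
    (A R r t : ℕ) (ht : 2 * m * t ≤ w) (hB : FewWastefulTrees B A R) (q1 q2 : S) (i : Fin l) (k : Fin K)
    (Y : Finset (Fin w)) (hY : Y.card = 2 * m * t)
    (C : Finset (Lab l (w * K) p)) (w1 w2 : Lab l (w * K) p → List (Frame (Entry l w K m p) (ZMod p) S))
    (w3 : Lab l (w * K) p → Tree (Entry l w K m p) (ZMod p) S)
    (hD : ∀ D ∈ C, ∀ D' ∈ C, ∀ j v, (j = i.castSucc.castSucc → v ∉ cells k Y) → D j v = D' j v)
    (h1 : ∀ D ∈ C, CRun B (inp (m := m) D) B.start (w1 D) q1) (h2 : ∀ D ∈ C, CRun B (inp (m := m) D) q1 (w2 D) q2)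
    (h3 : ∀ D ∈ C, Run B (inp (m := m) D) q2 (w3 D))
    (hr : ∀ D ∈ C, (treads (whole (w1 D) (w2 D) (w3 D)) \ relevant (inp (m := m) D)).encard ≤ r)
    (hX : ∀ D ∈ C, ∃ T : Finset (Fin (w * K)), T.card = 2 * t * K + R ∧ ∀ v ∈ T,
      ((i.succ.castSucc, v, argD (m := m) D i.succ.castSucc v) : Entry l w K m p) ∈ creads (w2 D))
    (hYn : ∀ D ∈ C, ∀ v ∈ cells k Y,
      ((i.castSucc.castSucc, v, argD (m := m) D i.castSucc.castSucc v) : Entry l w K m p) ∉ creads (w2 D)) :
    C.card ≤ ((A + 1) * (2 * r + 1)) ^ t := by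
  classical
  have hp0 : NeZero p := ⟨(Fact.out : p.Prime).ne_zero⟩
  rcases Nat.eq_zero_or_pos m with hm | hm
  · have hY0 : Y = ∅ := by
      rw [← card_eq_zero, hY, hm]
      simp
    have h0 : C.card ≤ 1 := by
      refine card_le_one.2 fun D hDC D' hDC' => ?_
      funext j u
      refine hD D hDC D' hDC' j u fun _ hu => ?_
      rw [hY0] at hu
      simp [cells] at hu
    exact h0.trans (Nat.one_le_pow _ _ (Nat.mul_pos (Nat.succ_pos A) (Nat.succ_pos _)))
  have htw : t ≤ w := le_trans (by nlinarith) ht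
  have hlvl : i.succ.castSucc ≠ Fin.last (l + 1) := by
    intro h
    exact absurd h (Fin.castSucc_lt_last _).ne
  -- injectivity from the arguments of `t` nodes
  have hinj : ∀ D ∈ C, ∀ D' ∈ C, ∀ T : Finset (Fin w), T.card = t →
      (∀ v ∈ T, argG (m := m) D i.succ.castSucc v = argG (m := m) D' i.succ.castSucc v) → D = D' := by
    intro D hDC D' hDC' T hT h
    have hc := cauchy' hp T Y (by rw [hY, hT])
      (fun v => gval (fun u => (D i.castSucc.castSucc u : ZMod p)) v -
        gval (fun u => (D' i.castSucc.castSucc u : ZMod p)) v) (by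
        intro v hv
        rw [sub_eq_zero]
        refine prod_congr rfl fun k' _ => ?_
        show ((D i.castSucc.castSucc (cel v k') : (ZMod p)ˣ) : ZMod p) =
          (D' i.castSucc.castSucc (cel v k') : ZMod p)
        rw [hD D hDC D' hDC' _ (cel v k') (fun _ h' => hv ((mem_cells k Y v k').1 h').1)]) (by
        intro v hv d q
        have h1 : ∑ u, M w m p d q v u * gval (fun u => (D i.castSucc.castSucc u : ZMod p)) u =
            ∑ u, M w m p d q v u * gval (fun u => (D' i.castSucc.castSucc u : ZMod p)) u :=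
          congrFun (congrFun (h v hv) d) q
        simp only [mul_sub, sum_sub_distrib, h1, sub_self])
    funext j u
    by_cases hju : j = i.castSucc.castSucc ∧ u ∈ cells k Y
    · obtain ⟨rfl, hu⟩ := hju
      obtain ⟨v, k', rfl⟩ : ∃ v k', u = cel v k' := ⟨grp u, sub u, (cel_grp_sub u).symm⟩
      obtain ⟨hv, rfl⟩ := (mem_cells k Y v k').1 hu
      have h2 := congrFun hc v
      simp only [Pi.zero_apply, sub_eq_zero] at h2
      unfold gval at h2
      rw [← mul_prod_erase univ _ (mem_univ k'), ← mul_prod_erase univ _ (mem_univ k')] at h2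
      have h3 : ∏ x ∈ univ.erase k', ((D i.castSucc.castSucc (cel v x) : (ZMod p)ˣ) : ZMod p) =
          ∏ x ∈ univ.erase k', ((D' i.castSucc.castSucc (cel v x) : (ZMod p)ˣ) : ZMod p) := by
        refine prod_congr rfl fun x hx => ?_
        rw [hD D hDC D' hDC' _ (cel v x)
          (fun _ h' => (mem_erase.1 hx).1 ((mem_cells k' Y v x).1 h').2)]
      have h4 : ∏ x ∈ univ.erase k', ((D' i.castSucc.castSucc (cel v x) : (ZMod p)ˣ) : ZMod p) ≠ 0 :=
        prod_ne_zero_iff.2 fun x _ => (D' i.castSucc.castSucc (cel v x)).ne_zero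
      rw [h3] at h2
      exact Units.ext (mul_right_cancel₀ h4 h2)
    · exact hD D hDC D' hDC' j u (fun hj hu => hju ⟨hj, hu⟩)
  have hrel : ∀ (D : Lab l (w * K) p) (v : Fin (w * K)) (b : Arg m p),
      ((i.succ.castSucc, v, b) : Entry l w K m p) ∈ relevant (inp (m := m) D) ↔ b = argD (m := m) D i.succ.castSucc v := by
    intro D v b
    constructor
    · rintro ⟨h, _⟩
      rw [← arg_inp D]
      exact h
    · intro h
      refine ⟨?_, fun h' => absurd h' hlvl⟩
      show b = arg (inp (m := m) D) i.succ.castSucc v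
      rw [arg_inp, h]
  refine greedy C (fun D v => argG (m := m) D i.succ.castSucc v)
    (fun D => tirr D i.succ.castSucc (whole (w1 D) (w2 D) (w3 D))) r (A + 1) t (Nat.succ_pos A) (by rw [Fintype.card_fin]; exact htw)
    (fun D hDC => tirr_card D _ _ r (hr D hDC)) ?_ hinj ?_
  · intro D hDC v hv
    obtain ⟨u, hu, -, h⟩ := (mem_tirr _ _ _ _ _).1 hv
    refine h ((hrel D u _).2 ?_)
    show argG (m := m) D i.succ.castSucc v = argG (m := m) D i.succ.castSucc (grp u)
    rw [hu]
  · intro I hIC hI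
    refine thybrid_waste (lt_of_le_of_lt (Nat.zero_le _) k.isLt) B A R t hB q1 q2 i (cells k Y) I w1 w2 w3
      (fun D h D' h' => hD D (hIC h) D' (hIC h')) (fun D h => h1 D (hIC h))
      (fun D h => h2 D (hIC h)) (fun D h => h3 D (hIC h)) (fun D h => hX D (hIC h))
      (fun D h => hYn D (hIC h)) (fun D h D' h' => hinj D (hIC h) D' (hIC h')) ?_
    · intro D hDI D' hDI' hne e he he'
      by_contra hdiff
      rcases differ D D' i (cells k Y) (hD D (hIC hDI) D' (hIC hDI')) e hdiff with ⟨ha, hb, hc⟩ | ⟨ha, hb, hc | hc⟩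
      · obtain ⟨e1, e2, e3⟩ := e
        simp only at ha hb hc
        subst ha
        subst hc
        exact hYn D (hIC hDI) e2 hb he
      · obtain ⟨e1, e2, e3⟩ := e
        simp only at ha hb hc
        subst ha
        subst hc
        refine hI D' hDI' D hDI (Ne.symm hne) (grp e2) ?_
        exact (mem_tirr _ _ _ _ _).2 ⟨e2, rfl, he', fun h => hb ((hrel D' e2 _).1 h)⟩
      · obtain ⟨e1, e2, e3⟩ := e
        simp only at ha hb hc
        subst ha
        subst hc
        refine hI D hDI D' hDI' hne (grp e2) ?_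
        refine (mem_tirr _ _ _ _ _).2 ⟨e2, rfl, ?_, fun h => hb ((hrel D e2 _).1 h).symm⟩
        rw [treads_whole]
        exact Or.inr (Or.inl he)



theorem tclass_count {l w K m p : ℕ} [Fact p.Prime] {S : Type} [Fintype S] (hp : (2 * m + 1) * w ≤ p)
    (B : Prog (Entry l w K m p) (ZMod p) S)
    (A R r t : ℕ) (ht : 2 * m * t ≤ w) (hB : FewWastefulTrees B A R) (k : Fin K) (Y : Finset (Fin w))
    (hY : Y.card = 2 * m * t)
    (G : Finset (Lab l (w * K) p)) (w1 w2 : Lab l (w * K) p → List (Frame (Entry l w K m p) (ZMod p) S))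
    (w3 : Lab l (w * K) p → Tree (Entry l w K m p) (ZMod p) S)
    (q1 q2 : Lab l (w * K) p → S) (i : Lab l (w * K) p → Fin l)
    (h1 : ∀ D ∈ G, CRun B (inp (m := m) D) B.start (w1 D) (q1 D))
    (h2 : ∀ D ∈ G, CRun B (inp (m := m) D) (q1 D) (w2 D) (q2 D))
    (h3 : ∀ D ∈ G, Run B (inp (m := m) D) (q2 D) (w3 D))
    (hr : ∀ D ∈ G, (treads (whole (w1 D) (w2 D) (w3 D)) \ relevant (inp (m := m) D)).encard ≤ r)
    (hX : ∀ D ∈ G, ∃ T : Finset (Fin (w * K)), T.card = 2 * t * K + R ∧ ∀ v ∈ T,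
      (((i D).succ.castSucc, v, argD (m := m) D (i D).succ.castSucc v) : Entry l w K m p) ∈ creads (w2 D))
    (hYn : ∀ D ∈ G, ∀ v ∈ Y, (((i D).castSucc.castSucc, cel v k,
      argD (m := m) D (i D).castSucc.castSucc (cel v k)) : Entry l w K m p) ∉ creads (w2 D)) :
    G.card * (p - 1) ^ (2 * m * t) ≤
      (Fintype.card S) ^ 2 * l * ((A + 1) * (2 * r + 1)) ^ t * (p - 1) ^ ((l + 2) * (w * K)) := by
  classical
  set T1 : Finset ((_ : Fin l) × Lab l (w * K) p) := (univ : Finset (Fin l)).sigma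
    (fun j => univ.filter (fun D : Lab l (w * K) p => ∀ v ∈ cells k Y, D j.castSucc.castSucc v = 1)) with hT1
  set T : Finset ((S × S) × ((_ : Fin l) × Lab l (w * K) p)) := univ ×ˢ T1 with hT
  set f : Lab l (w * K) p → (S × S) × ((_ : Fin l) × Lab l (w * K) p) := fun D =>
    ((q1 D, q2 D), ⟨i D, reset D (i D).castSucc.castSucc (cells k Y)⟩) with hf
  have hmap : ∀ D ∈ G, f D ∈ T := by
    intro D hD
    refine mem_product.2 ⟨mem_univ _, mem_sigma.2 ⟨mem_univ _, ?_⟩⟩
    refine mem_filter.2 ⟨mem_univ _, fun v hv => ?_⟩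
    show reset D (i D).castSucc.castSucc (cells k Y) (i D).castSucc.castSucc v = 1
    unfold reset
    rw [if_pos ⟨rfl, hv⟩]
  have hfib : ∀ b ∈ T, (G.filter (fun D => f D = b)).card ≤ ((A + 1) * (2 * r + 1)) ^ t := by
    rintro ⟨⟨a1, a2⟩, ⟨j, D0⟩⟩ hb
    have key : ∀ D ∈ G.filter (fun D => f D = ((a1, a2), ⟨j, D0⟩)), D ∈ G ∧ q1 D = a1 ∧ q2 D = a2 ∧
        i D = j ∧ reset D j.castSucc.castSucc (cells k Y) = D0 := by
      intro D hD
      obtain ⟨hDG, hDf⟩ := mem_filter.1 hD
      have e1 : q1 D = a1 := congrArg (fun z => z.1.1) hDf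
      have e2 : q2 D = a2 := congrArg (fun z => z.1.2) hDf
      have e3 : i D = j := congrArg (fun z => z.2.1) hDf
      have e5 : reset D (i D).castSucc.castSucc (cells k Y) = D0 := congrArg (fun z => z.2.2) hDf
      rw [e3] at e5
      exact ⟨hDG, e1, e2, e3, e5⟩
    refine tclass_card hp B A R r t ht hB a1 a2 j k Y hY _ w1 w2 w3 ?_ ?_ ?_ ?_ ?_ ?_ ?_
    · intro D hD D' hD' j' v hk
      obtain ⟨-, -, -, -, h⟩ := key D hD
      obtain ⟨-, -, -, -, h'⟩ := key D' hD'
      have := congrFun (congrFun (h.trans h'.symm) j') v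
      unfold reset at this
      by_cases hkv : j' = j.castSucc.castSucc ∧ v ∈ cells k Y
      · exact absurd hkv.2 (hk hkv.1)
      · rwa [if_neg hkv, if_neg hkv] at this
    · intro D hD
      obtain ⟨hG, e1, e2, e3, -⟩ := key D hD
      rw [← e1]; exact h1 D hG
    · intro D hD
      obtain ⟨hG, e1, e2, e3, -⟩ := key D hD
      rw [← e1, ← e2]; exact h2 D hG
    · intro D hD
      obtain ⟨hG, e1, e2, e3, -⟩ := key D hD
      rw [← e2]; exact h3 D hG
    · intro D hD
      exact hr D (key D hD).1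
    · intro D hD
      obtain ⟨hG, e1, e2, e3, -⟩ := key D hD
      rw [← e3]; exact hX D hG
    · intro D hD u hu
      obtain ⟨hG, e1, e2, e3, -⟩ := key D hD
      obtain ⟨v, k', rfl⟩ : ∃ v k', u = cel v k' := ⟨grp u, sub u, (cel_grp_sub u).symm⟩
      obtain ⟨hv, rfl⟩ := (mem_cells k Y v k').1 hu
      rw [← e3]; exact hYn D hG v hv
  have hle := card_le_mul_card_image_of_maps_to hmap _ hfib
  have hT1c : T1.card * (p - 1) ^ (2 * m * t) = l * (p - 1) ^ ((l + 2) * (w * K)) := by
    rw [hT1, card_sigma, sum_mul]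
    have : ∀ j ∈ (univ : Finset (Fin l)), (univ.filter (fun D : Lab l (w * K) p => ∀ v ∈ cells k Y,
        D j.castSucc.castSucc v = 1)).card * (p - 1) ^ (2 * m * t) = (p - 1) ^ ((l + 2) * (w * K)) := by
      intro j _
      have := card_resets (p := p) j.castSucc.castSucc (cells k Y)
      rwa [card_cells, hY] at this
    rw [sum_congr rfl this, sum_const, smul_eq_mul, card_univ, Fintype.card_fin]
  have hTc : T.card = (Fintype.card S) ^ 2 * T1.card := by
    rw [hT, card_product, card_univ, Fintype.card_prod, sq]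
  calc G.card * (p - 1) ^ (2 * m * t) ≤ (((A + 1) * (2 * r + 1)) ^ t * T.card) * (p - 1) ^ (2 * m * t) :=
        Nat.mul_le_mul_right _ hle
    _ = (Fintype.card S) ^ 2 * ((A + 1) * (2 * r + 1)) ^ t * (T1.card * (p - 1) ^ (2 * m * t)) := by
        rw [hTc]; ring
    _ = _ := by rw [hT1c]; ring


end Pool.Agent.UZ
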