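import Pool.Agent.UZ.TCount
import Pool.Agent.UZ.TWin
import Pool.Agent.UZ.Values
import Pool.Agent.UZ.Choose
import Pool.Agent.UY.THeavy

/-!
Heavy labelings for programs with forks (tables with `2 m` arguments, several cells per node).
-/

set_option autoImplicit false

namespace Pool.Agent.UZ

open Finset Pool.Agent.UW
open Pool.Agent.UY (cel grp sub gval cel_grp_sub)

/-- The nodes of level `l` (below the root) whose relevant entry is read by a tree. -/
noncomputable def treadAt {l w K m p : ℕ} {S : Type} (D : Lab l (w * K) p)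
    (T : Tree (Entry l w K m p) (ZMod p) S) : Finset (Fin (w * K)) := by
  classical
  exact univ.filter (fun v =>
    (((Fin.last l).castSucc, v, argD D (Fin.last l).castSucc v) : Entry l w K m p) ∈ treads T)

/-- Accepted by a tree of size `< z` which reads `≤ r` irrelevant entries and `≥ t'` nodes of level
`l`. -/
def THeavy {l w K m p : ℕ} {S : Type} (B : Prog (Entry l w K m p) (ZMod p) S) (r z t' : ℕ)
    (D : Lab l (w * K) p) : Prop :=
  ∃ T, AccTree B (inp D) T ∧ (treads T \ relevant (inp D)).encard ≤ r ∧ tsize T < z ∧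
    t' ≤ (treadAt D T).card

/-- If few cells are taken, then for some `k` cell `k` of most nodes is free. -/
theorem exists_cell {w K b : ℕ} (hK : 0 < K) (U0 : Finset (Fin (w * K))) (h : U0.card ≤ b * K) :
    ∃ k : Fin K, ∃ U : Finset (Fin w), w ≤ U.card + b ∧ ∀ v ∈ U, cel v k ∉ U0 := by
  classical
  by_contra hcon
  push Not at hcon
  have h1 : ∀ k : Fin K, b + 1 ≤ (univ.filter fun v : Fin w => cel v k ∈ U0).card := by
    intro k
    by_contra hk
    obtain ⟨v, hv, hv'⟩ := hcon k (univ.filter fun v : Fin w => cel v k ∉ U0) (by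
      have h2 := card_filter_add_card_filter_not (s := (univ : Finset (Fin w)))
        (fun v => cel v k ∈ U0)
      rw [card_univ, Fintype.card_fin] at h2
      omega)
    exact (mem_filter.1 hv).2 hv'
  have h2 : ∑ k : Fin K, (univ.filter fun v : Fin w => cel v k ∈ U0).card ≤ U0.card := by
    rw [card_eq_sum_card_fiberwise (s := U0) (f := fun u => sub u) (t := univ)
      (fun _ _ => mem_univ _)]
    refine sum_le_sum fun k _ => ?_
    refine card_le_card_of_injOn (fun v => cel v k) ?_ ?_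
    · intro v hv
      have hv1 := (mem_filter.1 (mem_coe.1 hv)).2
      exact mem_coe.2 (mem_filter.2 ⟨hv1, UY.sub_cel v k⟩)
    · intro v _ v' _ hvv
      exact (UY.cel_inj hvv).1
  have h3 : (b + 1) * K ≤ ∑ k : Fin K, (univ.filter fun v : Fin w => cel v k ∈ U0).card := by
    calc (b + 1) * K = ∑ _k : Fin K, (b + 1) := by
          rw [sum_const, card_univ, Fintype.card_fin, smul_eq_mul, mul_comm]
      _ ≤ _ := sum_le_sum fun k _ => h1 k
  have h4 : (b + 1) * K = b * K + K := by ring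
  omega

theorem theavy_split {l w K m p : ℕ} [Fact p.Prime] {S : Type}
    (B : Prog (Entry l w K m p) (ZMod p) S) (R r t : ℕ) (ht : 0 < t) (hK : 0 < K)
    (hR : R ≤ t * K)
    (D : Lab l (w * K) p) (hD : THeavy B r (2 ^ l) (2 * t * K + R) D) :
    ∃ (w1 w2 : List (Frame (Entry l w K m p) (ZMod p) S)) (w3 : Tree (Entry l w K m p) (ZMod p) S)
      (q1 q2 : S) (i : Fin l) (k : Fin K) (U : Finset (Fin w)), w ≤ U.card + 15 * t ∧
      CRun B (inp D) B.start w1 q1 ∧ CRun B (inp D) q1 w2 q2 ∧ Run B (inp D) q2 w3 ∧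
      (treads (whole w1 w2 w3) \ relevant (inp D)).encard ≤ r ∧
      (∃ T : Finset (Fin (w * K)), T.card = 2 * t * K + R ∧ ∀ v ∈ T,
        ((i.succ.castSucc, v, argD D i.succ.castSucc v) : Entry l w K m p) ∈ creads w2) ∧
      (∀ v ∈ U, ((i.castSucc.castSucc, cel v k, argD D i.castSucc.castSucc (cel v k)) :
        Entry l w K m p) ∉ creads w2) := by
  classical
  obtain ⟨T, hacc, hr, hlen, hrd⟩ := hD
  have htK : 0 < t * K := Nat.mul_pos ht hK
  have e2 : 2 * t * K = 2 * (t * K) := by ring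
  have e15 : 15 * t * K = 15 * (t * K) := by ring
  have hseen : tseen (tcol D) l T = treadAt D T := by
    ext v
    have := mem_tseen_tcol D (Fin.last l).castSucc v T
    have hl : (((Fin.last l).castSucc : Fin (l + 2)) : ℕ) = l := rfl
    rw [hl] at this
    rw [this]
    unfold treadAt
    simp
  obtain ⟨i, hil, c1, c2, t3, hs, h1, h2⟩ := window_tree (tcol D) (2 * t * K + R)
    (15 * t * K) l (by omega) (by omega) T (by rw [hseen]; exact hrd) hlen
  subst hs
  obtain ⟨q1, hs1, h23⟩ := (run_fill B (inp D) _ _ _).1 hacc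
  obtain ⟨q2, hs2, h3⟩ := (run_fill B (inp D) _ _ _).1 h23
  obtain ⟨X, hX, hXc⟩ := exists_subset_card_eq h1
  obtain ⟨k, U, hU, hUk⟩ := exists_cell hK (cseen (tcol D) i c2) h2
  refine ⟨c1, c2, t3, q1, q2, ⟨i, hil⟩, k, U, hU, hs1, hs2, h3, hr,
    ⟨X, hXc, fun v hv => ?_⟩, fun v hv hm => ?_⟩
  · exact (mem_cseen_tcol D (Fin.succ ⟨i, hil⟩).castSucc v c2).1 (hX hv)
  · exact hUk v hv ((mem_cseen_tcol D (Fin.castSucc ⟨i, hil⟩).castSucc (cel v k) c2).2 hm)

theorem theavy_card {l w K m p : ℕ} [Fact p.Prime] {S : Type} [Fintype S]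
    (hp : (2 * m + 1) * w ≤ p) (B : Prog (Entry l w K m p) (ZMod p) S) (A R r t : ℕ) (ht : 0 < t)
    (hK : 0 < K) (hm : 0 < m) (hR : R ≤ t * K) (hw : 256 * (m * t ^ 2) ≤ w)
    (hB : FewWastefulTrees B A R) (G : Finset (Lab l (w * K) p))
    (hG : ∀ D ∈ G, THeavy B r (2 ^ l) (2 * t * K + R) D) :
    G.card * (p - 1) ^ (2 * m * t) ≤
      3 * (K * ((Fintype.card S) ^ 2 * l * ((A + 1) * (2 * r + 1)) ^ t *
        (p - 1) ^ ((l + 2) * (w * K)))) := by
  classical
  rcases G.eq_empty_or_nonempty with h0 | ⟨D0, hD0⟩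
  · simp [h0]
  have hc : 4 * (15 * t) * (2 * m * t) + 15 * t + 2 * m * t ≤ w := by
    have h1 : t ≤ m * t ^ 2 := by
      calc t = 1 * (t * 1) := by ring
        _ ≤ m * (t * t) := by gcongr <;> omega
        _ = m * t ^ 2 := by ring
    have h2 : m * t ≤ m * t ^ 2 := by
      calc m * t = m * (t * 1) := by ring
        _ ≤ m * (t * t) := by gcongr; omega
        _ = m * t ^ 2 := by ring
    have e1 : 4 * (15 * t) * (2 * m * t) = 120 * (m * t ^ 2) := by ring
    have e2 : 2 * m * t = 2 * (m * t) := by ring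
    omega
  have key := fun D (hD : D ∈ G) => theavy_split B R r t ht hK hR D (hG D hD)
  obtain ⟨a1, a2, a3, b1, b2, i0, k0, U0, -⟩ := key D0 hD0
  have : Nonempty S := ⟨b1⟩
  have : Nonempty (Fin l) := ⟨i0⟩
  have : Nonempty (Fin K) := ⟨k0⟩
  have : Nonempty (Tree (Entry l w K m p) (ZMod p) S) := ⟨a3⟩
  choose! w1 w2 w3 q1 q2 i k U hh using key
  set X := (Fintype.card S) ^ 2 * l * ((A + 1) * (2 * r + 1)) ^ t * (p - 1) ^ ((l + 2) * (w * K))
    with hX
  set w' := w - 15 * t with hw'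
  -- each set of `2 m t` nodes
  have hone : ∀ Y ∈ powersetCard (2 * m * t) (univ : Finset (Fin w)),
      (G.filter (fun D => Y ⊆ U D)).card * (p - 1) ^ (2 * m * t) ≤ K * X := by
    intro Y hY
    have hYc := (mem_powersetCard.1 hY).2
    have hk : ∀ k' : Fin K, ((G.filter (fun D => Y ⊆ U D)).filter (fun D => k D = k')).card *
        (p - 1) ^ (2 * m * t) ≤ X := by
      intro k'
      refine tclass_count hp B A R r t (by omega) hB k' Y hYc _ w1 w2 w3 q1 q2 i
        ?_ ?_ ?_ ?_ ?_ ?_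
      · intro D hD; exact (hh D (mem_filter.1 (mem_filter.1 hD).1).1).2.1
      · intro D hD; exact (hh D (mem_filter.1 (mem_filter.1 hD).1).1).2.2.1
      · intro D hD; exact (hh D (mem_filter.1 (mem_filter.1 hD).1).1).2.2.2.1
      · intro D hD; exact (hh D (mem_filter.1 (mem_filter.1 hD).1).1).2.2.2.2.1
      · intro D hD; exact (hh D (mem_filter.1 (mem_filter.1 hD).1).1).2.2.2.2.2.1
      · intro D hD v hv
        have h1 := (hh D (mem_filter.1 (mem_filter.1 hD).1).1).2.2.2.2.2.2 v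
          ((mem_filter.1 (mem_filter.1 hD).1).2 hv)
        rw [(mem_filter.1 hD).2] at h1
        exact h1
    rw [card_eq_sum_card_fiberwise (f := fun D => k D) (t := univ) (fun _ _ => mem_univ _),
      sum_mul]
    calc ∑ k' : Fin K, ((G.filter (fun D => Y ⊆ U D)).filter (fun D => k D = k')).card *
          (p - 1) ^ (2 * m * t) ≤ ∑ _k' : Fin K, X := sum_le_sum fun k' _ => hk k'
      _ = K * X := by rw [sum_const, card_univ, Fintype.card_fin, smul_eq_mul]
  -- double counting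
  have hdc : ∑ Y ∈ powersetCard (2 * m * t) (univ : Finset (Fin w)),
        (G.filter (fun D => Y ⊆ U D)).card =
      ∑ D ∈ G, ((powersetCard (2 * m * t) (univ : Finset (Fin w))).filter (fun Y => Y ⊆ U D)).card :=
    sum_card_bipartiteAbove_eq_sum_card_bipartiteBelow _
  have hlow : ∀ D ∈ G, w'.choose (2 * m * t) ≤
      ((powersetCard (2 * m * t) (univ : Finset (Fin w))).filter (fun Y => Y ⊆ U D)).card := by
    intro D hD
    have h1 : ((powersetCard (2 * m * t) (univ : Finset (Fin w))).filter (fun Y => Y ⊆ U D)) =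
        powersetCard (2 * m * t) (U D) := by
      ext Y
      simp only [mem_filter, mem_powersetCard]
      constructor
      · rintro ⟨⟨_, h⟩, h'⟩; exact ⟨h', h⟩
      · rintro ⟨h, h'⟩; exact ⟨⟨subset_univ _, h'⟩, h⟩
    rw [h1, card_powersetCard]
    have h2 := (hh D hD).1
    exact Nat.choose_le_choose (2 * m * t) (by omega)
  have h1 : G.card * w'.choose (2 * m * t) * (p - 1) ^ (2 * m * t) ≤ w.choose (2 * m * t) * (K * X) := by
    calc G.card * w'.choose (2 * m * t) * (p - 1) ^ (2 * m * t)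
        ≤ (∑ Y ∈ powersetCard (2 * m * t) (univ : Finset (Fin w)),
            (G.filter (fun D => Y ⊆ U D)).card) * (p - 1) ^ (2 * m * t) := by
          refine Nat.mul_le_mul_right _ ?_
          rw [hdc, ← smul_eq_mul, ← sum_const]
          exact sum_le_sum hlow
      _ = ∑ Y ∈ powersetCard (2 * m * t) (univ : Finset (Fin w)),
            (G.filter (fun D => Y ⊆ U D)).card * (p - 1) ^ (2 * m * t) := by
          rw [sum_mul]
      _ ≤ ∑ Y ∈ powersetCard (2 * m * t) (univ : Finset (Fin w)), K * X := sum_le_sum hone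
      _ = w.choose (2 * m * t) * (K * X) := by
          rw [sum_const, card_powersetCard, card_univ, Fintype.card_fin, smul_eq_mul]
  have h2 := choose_most w (15 * t) (2 * m * t) hc
  rw [← hw'] at h2
  have hpos : 0 < w'.choose (2 * m * t) := Nat.choose_pos (by omega)
  have h3 : w'.choose (2 * m * t) * (G.card * (p - 1) ^ (2 * m * t)) ≤
      w'.choose (2 * m * t) * (3 * (K * X)) := by
    calc w'.choose (2 * m * t) * (G.card * (p - 1) ^ (2 * m * t)) =
        G.card * w'.choose (2 * m * t) * (p - 1) ^ (2 * m * t) := by ring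
      _ ≤ w.choose (2 * m * t) * (K * X) := h1
      _ ≤ (3 * w'.choose (2 * m * t)) * (K * X) := Nat.mul_le_mul_right _ h2
      _ = _ := by ring
  exact Nat.le_of_mul_le_mul_left h3 hpos

/-- The heavy labelings are at most a `2 ^ (-t)` part. -/
theorem theavy_small {l t R w K m A r p : ℕ} [Fact p.Prime] {S : Type} [Fintype S]
    (ht : 0 < t) (hl : l ≤ 2 ^ t) (hK : K ≤ 2 ^ t) (hK0 : 0 < K) (hm : 0 < m) (hR : R ≤ t * K)
    (hW : 256 * (m * t ^ 2) ≤ w) (hp : (2 * m + 1) * w ≤ p)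
    (hr : 96 * ((A + 1) * (2 * r + 1)) ≤ (p - 1) ^ (2 * m))
    (B : Prog (Entry l w K m p) (ZMod p) S) (hS : Fintype.card S ≤ 2 ^ t)
    (hB : FewWastefulTrees B A R)
    (G : Finset (Lab l (w * K) p)) (hG : ∀ D ∈ G, THeavy B r (2 ^ l) (2 * t * K + R) D) :
    2 ^ t * G.card ≤ Fintype.card (Lab l (w * K) p) := by
  have h := theavy_card hp B A R r t ht hK0 hm hR hW hB G hG
  have hpp : 0 < p - 1 := by
    have := (Fact.out : p.Prime).one_lt
    omega
  rw [card_lab]
  obtain ⟨Q, hQ⟩ : ∃ Q, Q = (A + 1) * (2 * r + 1) := ⟨_, rfl⟩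
  rw [← hQ] at h hr
  obtain ⟨P, hP⟩ : ∃ P, P = (p - 1) ^ ((l + 2) * (w * K)) := ⟨_, rfl⟩
  rw [← hP] at h ⊢
  have e8 : (2 : ℕ) ^ t * (2 ^ t * ((2 ^ t) ^ 2 * 2 ^ t)) = 32 ^ t := by
    calc (2 : ℕ) ^ t * (2 ^ t * ((2 ^ t) ^ 2 * 2 ^ t)) = (2 ^ t) ^ 5 := by ring
      _ = (2 ^ 5) ^ t := by rw [← pow_mul, ← pow_mul, mul_comm]
      _ = 32 ^ t := by norm_num
  have e3 : 3 ≤ 3 ^ t := by
    calc 3 = 3 ^ 1 := (pow_one 3).symm
      _ ≤ 3 ^ t := Nat.pow_le_pow_right (by omega) ht
  have h3 : (2 ^ t * G.card) * (p - 1) ^ (2 * m * t) ≤ P * (p - 1) ^ (2 * m * t) := by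
    calc (2 ^ t * G.card) * (p - 1) ^ (2 * m * t) = 2 ^ t * (G.card * (p - 1) ^ (2 * m * t)) := by
          ring
      _ ≤ 2 ^ t * (3 * (K * ((Fintype.card S) ^ 2 * l * Q ^ t * P))) :=
          Nat.mul_le_mul_left _ h
      _ ≤ 2 ^ t * (3 ^ t * (2 ^ t * ((2 ^ t) ^ 2 * 2 ^ t * Q ^ t * P))) := by
          gcongr
      _ = (2 ^ t * (2 ^ t * ((2 ^ t) ^ 2 * 2 ^ t))) * 3 ^ t * Q ^ t * P := by
          ring
      _ = (96 * Q) ^ t * P := by
          rw [e8, mul_pow, show (96 : ℕ) = 32 * 3 from rfl, mul_pow]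
      _ ≤ ((p - 1) ^ (2 * m)) ^ t * P := Nat.mul_le_mul_right _ (Nat.pow_le_pow_left hr t)
      _ = _ := by rw [← pow_mul]; ring
  exact Nat.le_of_mul_le_mul_right h3 (pow_pos hpp (2 * m * t))

/-- A tree which does not read the relevant entry of node `v` of level `l` accepts `bad D v`. -/
theorem tacc_bad {l w K m p : ℕ} {S : Type} (B : Prog (Entry l w K m p) (ZMod p) S) (D : Lab l (w * K) p)
    (T : Tree (Entry l w K m p) (ZMod p) S) (hacc : AccTree B (inp D) T) (v : Fin (w * K))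
    (hv : v ∉ treadAt D T) : AccTree B (bad D v) T := by
  classical
  refine run_congr B (inp D) (bad D v) _ _ hacc (fun e he => ?_)
  unfold bad
  split_ifs with hif
  · obtain ⟨e1, e2, e3⟩ := e
    simp only at hif
    obtain ⟨h1, h2⟩ := hif
    subst h1
    subst h2
    unfold inp
    rw [if_neg]
    intro h3
    apply hv
    unfold treadAt
    refine mem_filter.2 ⟨mem_univ _, ?_⟩
    simp only at h3
    rw [← h3]
    exact he
  · rfl

end Pool.Agent.UZ
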